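import Pool.Agent.Helper78_MTD.Zs
import Pool.Agent.Helper78_MTD.Gal3
import Pool.Agent.MT100D.Stmts

/-! MT100-D: the modules GALD, ZSAD, ZSBD. -/

set_option autoImplicit false
set_option linter.unusedSectionVars false

namespace Pool.Agent.MT100D.H78

open Matrix Polynomial Pool.Agent.MT100 Pool.Agent.MT100G Pool.Agent.MT100G.H58
open Pool.Agent.Helper58_MT

variable {d : Type} [Fintype d] [DecidableEq d]

theorem comD {N : Matrix d d ℤ} {δ : d → ℚ} (h : ∀ i j, N i j ≠ 0 → δ i = δ j) :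
    N.map (fun x => (x : ℚ)) * Matrix.diagonal δ = Matrix.diagonal δ * N.map (fun x => (x : ℚ)) := by
  ext i j
  rw [Matrix.mul_diagonal, Matrix.diagonal_mul, Matrix.map_apply]
  by_cases hN : N i j = 0
  · rw [hN]; simp
  · rw [h i j hN, mul_comm]

/-- GALD -/
theorem galD : GalDStmt := by
  intro d _ _ H K N δ q B hG
  exact galA hG.inv hG.nil (comD hG.com) (binG_diag δ) hG.ode hG.gH hG.gK

theorem zq_ne {q : ℤ[X]} (h0 : q ≠ 0) : zq q ≠ 0 := fun h =>
  h0 ((Polynomial.map_eq_zero_iff (RingHom.injective_int (Int.castRingHom ℚ))).1 h)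

theorem gsysD_ode {H K : Matrix d d (PowerSeries ℚ)} {N : Matrix d d ℤ} {δ : d → ℚ} {q : ℤ[X]}
    {B : Matrix d d ℤ[X]} (h : GSysW H K N δ q B) :
    co (X * zq q) • H.map (PowerSeries.derivative ℚ)
      = (B.map zq).map co * H - co (zq q) • (H * pc (AA N δ)) := by
  have h1 := h.ode
  have h2 : co (X * zq q) = zp q * PowerSeries.X := by
    rw [map_mul, co_X, mul_comm]
    rfl
  rw [h2]
  exact h1

/-- ZSBD -/
theorem zsbD : ZsbDStmt := by
  intro d _ _ H K N δ q B hG u hu m' e ε R hR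
  exact zsb0 (zq q) (zq_ne hG.q0) (B.map zq) (AA N δ) H hG.one (gsysD_ode hG.toGSysW) u hu m' e ε R hR

/-! ### Removal of the resonances -/

theorem aeval_nil {S : Type*} [Ring S] [Algebra ℚ S] (n a : S) (hc : n * a = a * n) (P : ℚ[X]) :
    ∃ R : S, n * R = R * n ∧ aeval (n + a) P - aeval a P = n * R := by
  induction P using Polynomial.induction_on' with
  | add p q hp hq =>
    obtain ⟨R, hR, hR'⟩ := hp
    obtain ⟨T, hT, hT'⟩ := hq
    refine ⟨R + T, by rw [mul_add, add_mul, hR, hT], ?_⟩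
    rw [map_add, map_add, mul_add, ← hR', ← hT']
    abel
  | monomial k c =>
    have key : ∃ R : S, n * R = R * n ∧ (n + a) ^ k - a ^ k = n * R := by
      induction k with
      | zero => exact ⟨0, by simp, by simp⟩
      | succ k ih =>
        obtain ⟨R, hR, hR'⟩ := ih
        have hak : n * a ^ k = a ^ k * n := (Commute.pow_right (show Commute n a from hc) k)
        refine ⟨(n + a) * R + a ^ k, ?_, ?_⟩
        · have h1 : n * ((n + a) * R) = (n + a) * R * n := by
            rw [← mul_assoc, mul_add, hc, ← add_mul, mul_assoc, hR, ← mul_assoc]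
          rw [mul_add n ((n + a) * R), add_mul ((n + a) * R), hak, h1]
        · have e1 : (n + a) ^ (k + 1) - a ^ (k + 1) = (n + a) * ((n + a) ^ k - a ^ k) + n * a ^ k := by
            rw [pow_succ', pow_succ', mul_sub, add_mul n a (a ^ k)]
            abel
          rw [e1, hR', mul_add]
          congr 1
          rw [← mul_assoc, ← mul_assoc, add_mul, mul_add, hc]
    obtain ⟨R, hR, hR'⟩ := key
    refine ⟨c • R, by rw [mul_smul_comm, smul_mul_assoc, hR], ?_⟩
    rw [aeval_monomial, aeval_monomial, ← mul_sub, hR', ← Algebra.smul_def, mul_smul_comm]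

theorem aeval_diag (δ : d → ℚ) (P : ℚ[X]) :
    aeval (Matrix.diagonal δ) P = Matrix.diagonal fun i => P.eval (δ i) := by
  induction P using Polynomial.induction_on' with
  | add p q hp hq =>
    rw [map_add, hp, hq, Matrix.diagonal_add]
    simp
  | monomial k c =>
    rw [aeval_monomial, Matrix.diagonal_pow]
    ext i j
    rw [Matrix.algebraMap_eq_diagonal, Matrix.diagonal_mul_diagonal]
    simp

theorem nonRes_shift (A : Matrix d d ℚ) (c : ℚ) (hA : NonRes A) :
    NonRes (A - algebraMap ℚ (Matrix d d ℚ) c) := by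
  intro L j0
  obtain ⟨f, hf1, hf2⟩ := hA L j0
  refine ⟨f.comp (X + C c), ?_, ?_⟩
  · intro j hj hne
    rw [aeval_comp, map_add, aeval_X, aeval_C]
    rw [show algebraMap ℚ (Matrix d d ℚ) (j : ℚ) + (A - algebraMap ℚ (Matrix d d ℚ) c) +
      algebraMap ℚ (Matrix d d ℚ) c = algebraMap ℚ (Matrix d d ℚ) (j : ℚ) + A by abel]
    exact hf1 j hj hne
  · rw [aeval_comp, map_add, aeval_X, aeval_C]
    rw [show algebraMap ℚ (Matrix d d ℚ) (j0 : ℚ) + (A - algebraMap ℚ (Matrix d d ℚ) c) +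
      algebraMap ℚ (Matrix d d ℚ) c = algebraMap ℚ (Matrix d d ℚ) (j0 : ℚ) + A by abel]
    exact hf2

theorem nonRes_AA {N : Matrix d d ℤ} (hN : IsNilpotent N) {δ : d → ℚ}
    (hcom : ∀ i j, N i j ≠ 0 → δ i = δ j) (h01 : ∀ i, 0 ≤ δ i ∧ δ i < 1) : NonRes (AA N δ) := by
  classical
  set s : Finset ℚ := Finset.univ.image δ with hs
  have hP : aeval (Matrix.diagonal δ) (∏ x ∈ s, (X - C x) : ℚ[X]) = 0 := by
    rw [aeval_diag]
    ext i j
    rw [Matrix.diagonal_apply, Matrix.zero_apply]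
    split_ifs with h
    · rw [eval_prod]
      apply Finset.prod_eq_zero (i := δ i) (Finset.mem_image.2 ⟨i, Finset.mem_univ _, rfl⟩)
      simp
    · rfl
  obtain ⟨R, hR, hR'⟩ := aeval_nil (N.map (fun x => (x : ℚ))) (Matrix.diagonal δ) (comD hcom)
    (∏ x ∈ s, (X - C x) : ℚ[X])
  rw [hP, sub_zero] at hR'
  obtain ⟨e, he⟩ := gsys_nil hN
  refine nonRes_of (AA N δ) s ?_ e ?_
  · intro x hx
    obtain ⟨i, _, rfl⟩ := Finset.mem_image.1 hx
    exact h01 i
  · show aeval (N.map (fun x => (x : ℚ)) + Matrix.diagonal δ) _ = 0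
    rw [map_pow, hR', (show Commute (N.map (fun x => (x : ℚ))) R from hR).mul_pow, he, zero_mul]

theorem supp {N : Matrix d d ℤ} (hN : IsNilpotent N) {δ : d → ℚ}
    (hcom : ∀ i j, N i j ≠ 0 → δ i = δ j) {u : d → ℚ} (hu : AA N δ *ᵥ u = 0) (i : d)
    (hi : u i ≠ 0) : δ i = 0 := by
  obtain ⟨e, he⟩ := gsys_nil hN
  set N' := N.map (fun x => (x : ℚ)) with hN'
  have h0 : Matrix.diagonal δ *ᵥ u = -(N' *ᵥ u) := by
    have h1 : N' *ᵥ u + Matrix.diagonal δ *ᵥ u = 0 := by rw [← Matrix.add_mulVec]; exact hu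
    exact eq_neg_of_add_eq_zero_right h1
  have hk : ∀ k : ℕ, (Matrix.diagonal δ) ^ k *ᵥ u = (-1 : ℚ) ^ k • (N' ^ k *ᵥ u) := by
    intro k
    induction k with
    | zero => simp
    | succ k ih =>
      have hc : Matrix.diagonal δ * N' ^ k = N' ^ k * Matrix.diagonal δ :=
        ((show Commute N' (Matrix.diagonal δ) from comD hcom).pow_left k).symm
      rw [pow_succ', ← Matrix.mulVec_mulVec, ih, Matrix.mulVec_smul, Matrix.mulVec_mulVec, hc,
        ← Matrix.mulVec_mulVec, h0, Matrix.mulVec_neg, Matrix.mulVec_mulVec, ← pow_succ,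
        pow_succ (-1 : ℚ), mul_smul, neg_one_smul]
  have h1 := congrFun (hk (e + 1)) i
  rw [pow_succ N', he, Matrix.zero_mul, Matrix.zero_mulVec, smul_zero, Matrix.diagonal_pow,
    Matrix.mulVec_diagonal] at h1
  have h2 : δ i ^ (e + 1) = 0 := (mul_eq_zero.1 h1).resolve_right hi
  exact pow_eq_zero_iff (by omega) |>.1 h2

/-- ZSAD -/
theorem zsaD : ZsaDStmt := by
  classical
  intro d _ _ H K N δ q B hG u hu m' e ε R hR
  -- the shift
  obtain ⟨M0, hM0⟩ : ∃ M0 : ℕ, ∀ i, 0 ≤ (M0 : ℤ) + ⌊δ i⌋ := by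
    refine ⟨∑ i, ⌊δ i⌋.natAbs, fun i => ?_⟩
    have h1 : ⌊δ i⌋.natAbs ≤ ∑ i, ⌊δ i⌋.natAbs :=
      Finset.single_le_sum (f := fun i => ⌊δ i⌋.natAbs) (fun _ _ => Nat.zero_le _)
        (Finset.mem_univ i)
    omega
  obtain ⟨m, hm⟩ : ∃ m : d → ℕ, ∀ i, (m i : ℤ) = (M0 : ℤ) + ⌊δ i⌋ :=
    ⟨fun i => ((M0 : ℤ) + ⌊δ i⌋).toNat, fun i => Int.toNat_of_nonneg (hM0 i)⟩
  obtain ⟨m0, hm0⟩ : ∃ m0 : ℕ, ∀ i, m i ≤ m0 :=
    ⟨∑ i, m i, fun i => Finset.single_le_sum (f := m) (fun _ _ => Nat.zero_le _)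
      (Finset.mem_univ i)⟩
  have hmδ : ∀ i j, N i j ≠ 0 → m i = m j := by
    intro i j h
    have h1 := hm i
    have h2 := hm j
    rw [hG.com i j h] at h1
    omega
  set δ' : d → ℚ := fun i => δ i - ⌊δ i⌋ with hδ'
  have hcom' : ∀ i j, N i j ≠ 0 → δ' i = δ' j := by
    intro i j h
    simp only [hδ', hG.com i j h]
  have hNR : NonRes (AA N δ' - algebraMap ℚ (Matrix d d ℚ) (M0 : ℚ)) := by
    apply nonRes_shift
    apply nonRes_AA hG.nil hcom'
    intro i
    simp only [hδ']
    exact ⟨Int.fract_nonneg (δ i), Int.fract_lt_one (δ i)⟩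
  have hA0 : AA N δ' - algebraMap ℚ (Matrix d d ℚ) (M0 : ℚ) =
      AA N δ - Matrix.diagonal (fun i => (m i : ℚ)) := by
    unfold AA
    rw [Matrix.algebraMap_eq_diagonal]
    ext i j
    simp only [Matrix.sub_apply, Matrix.add_apply, Matrix.diagonal_apply]
    split_ifs with h
    · have h1 : (m i : ℚ) = (M0 : ℚ) + ⌊δ i⌋ := by exact_mod_cast hm i
      simp only [hδ', h1, Pi.algebraMap_apply, Algebra.algebraMap_self, RingHom.id_apply]
      ring
    · simp
  rw [hA0] at hNR
  set Dm : Matrix d d (PowerSeries ℚ) := Matrix.diagonal fun i => PowerSeries.X ^ m i with hDm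
  set Dk : Matrix d d (PowerSeries ℚ) := Matrix.diagonal fun i => PowerSeries.X ^ (m0 - m i) with hDk
  refine zsa1 (zq q) (zq_ne hG.q0) (B.map zq) (AA N δ) H (gsysD_ode hG.toGSysW)
    (AA N δ - Matrix.diagonal (fun i => (m i : ℚ))) hNR (H * Dm) (Dk * K) m0 ?_ ?_ u hu M0 ?_
    m' e ε R hR
  · have h1 : Dm * Dk = (PowerSeries.X ^ m0 : PowerSeries ℚ) • (1 : Matrix d d (PowerSeries ℚ)) := by
      rw [hDm, hDk, Matrix.diagonal_mul_diagonal, Matrix.smul_one_eq_diagonal]
      congr 1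
      funext i
      rw [← pow_add, Nat.add_sub_cancel' (hm0 i)]
    rw [Matrix.mul_assoc, ← Matrix.mul_assoc Dm, h1, Matrix.smul_mul, Matrix.one_mul,
      Matrix.mul_smul, hG.inv]
  · have hode := gsysD_ode hG.toGSysW
    have hcomm : pc (AA N δ) * Dm = Dm * pc (AA N δ) := by
      ext i j : 1
      rw [hDm, Matrix.mul_diagonal, Matrix.diagonal_mul]
      by_cases hij : i = j
      · subst hij; rw [mul_comm]
      · by_cases hN : N i j = 0
        · have : pc (AA N δ) i j = 0 := by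
            simp [AA, hij, hN]
          rw [this]; simp
        · rw [hmδ i j hN, mul_comm]
    have hd : (H * Dm).map (PowerSeries.derivative ℚ) = H.map (PowerSeries.derivative ℚ) * Dm +
        H * Matrix.diagonal (fun i => PowerSeries.derivative ℚ (PowerSeries.X ^ m i)) := by
      ext i j : 1
      rw [Matrix.map_apply, Matrix.add_apply, hDm, Matrix.mul_diagonal, Matrix.mul_diagonal,
        Matrix.mul_diagonal, Derivation.leibniz, Matrix.map_apply]
      simp only [smul_eq_mul]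
      ring
    have hX : co (X * zq q) • (H * Matrix.diagonal
        (fun i => PowerSeries.derivative ℚ (PowerSeries.X ^ m i : PowerSeries ℚ))) =
        co (zq q) • (H * Dm * pc (Matrix.diagonal (fun i => (m i : ℚ)))) := by
      ext i j : 1
      rw [Matrix.smul_apply, Matrix.smul_apply, Matrix.mul_diagonal, hDm]
      have h3 : pc (Matrix.diagonal (fun i => (m i : ℚ))) =
          Matrix.diagonal (fun i => PowerSeries.C (m i : ℚ)) := by
        unfold pc
        rw [Matrix.diagonal_map (map_zero _)]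
        rfl
      rw [h3, Matrix.mul_diagonal, Matrix.mul_diagonal, map_mul, co_X, smul_eq_mul, smul_eq_mul,
        Derivation.leibniz_pow, PowerSeries.derivative_X]
      rcases Nat.eq_zero_or_pos (m j) with h | h
      · rw [h]; simp
      · obtain ⟨k, hk⟩ := Nat.exists_eq_add_of_lt h
        rw [hk, Nat.zero_add, Nat.add_sub_cancel, pow_succ, smul_eq_mul, mul_one, nsmul_eq_mul]
        push_cast
        simp only [map_add, map_natCast, map_one]
        ring
    rw [hd, smul_add, ← Matrix.smul_mul, hode, hX, Matrix.sub_mul, Matrix.smul_mul]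
    have h4 : pc (AA N δ - Matrix.diagonal (fun i => (m i : ℚ))) =
        pc (AA N δ) - pc (Matrix.diagonal (fun i => (m i : ℚ))) :=
      Matrix.map_sub _ (fun a b => map_sub _ a b) _ _
    rw [h4, Matrix.mul_sub, smul_sub, Matrix.mul_assoc H Dm (pc (AA N δ)), ← hcomm]
    simp only [Matrix.mul_assoc]
    abel
  · intro i
    simp only [hv]
    rw [Finset.mul_sum]
    refine Finset.sum_congr rfl fun j _ => ?_
    rw [hDm, Matrix.mul_diagonal]
    by_cases hj : u j = 0
    · rw [hj]; simp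
    · have h1 := supp hG.nil hG.com hu j hj
      have h2 : m j = M0 := by
        have := hm j
        rw [h1, Int.floor_zero] at this
        omega
      rw [h2]
      ring

end Pool.Agent.MT100D.H78
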