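import Pool.Agent.Helper76_MT100G.Gfv
import Pool.Agent.MT100D.Stmts

/-! MT100-D, module GFVD: port of Helper76_MT100G/Step and Gfv to rational exponents. -/

set_option autoImplicit false
set_option linter.unusedSectionVars false

namespace Pool.Agent.MT100D.H78

open BigOperators Polynomial Matrix Pool.Agent.MT100 Pool.Agent.MT100.H76 Pool.Agent.MT100G
open Pool.Agent.MT100G.H76

theorem rec_coeD {d : Type} [Fintype d] [DecidableEq d] {H K : Matrix d d (PowerSeries ℚ)}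
    {N : Matrix d d ℤ} {δ : d → ℚ} {q : ℤ[X]} {B : Matrix d d ℤ[X]} (S : GSysW H K N δ q B)
    (hR : RecStmt) (P : Matrix d d ℚ[X]) (k : ℕ) :
    trace ((Pk (zq q) (B.map zq) (AA N δ) P k).map
        (fun p => (p : PowerSeries ℚ)) * H) =
      ((X * zq q : ℚ[X]) : PowerSeries ℚ) ^ k *
        hs k (trace (P.map (fun p => (p : PowerSeries ℚ)) * H)) := by
  have h := hR.1 d d (zq q) (B.map zq) (AA N δ) P
    (Polynomial.coeToPowerSeries.ringHom) H (fun p => by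
      simp only [Polynomial.coeToPowerSeries.ringHom_apply]
      exact PowerSeries.derivative_coe p) (by
      have h0 := S.ode
      have e1 : (Polynomial.coeToPowerSeries.ringHom (X * zq q) : PowerSeries ℚ) =
          zp q * PowerSeries.X := by
        rw [map_mul]
        simp only [Polynomial.coeToPowerSeries.ringHom_apply, Polynomial.coe_X]
        exact mul_comm _ _
      have e2 : (B.map zq).map (Polynomial.coeToPowerSeries.ringHom (R := ℚ)) = B.map zp := by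
        ext1 i j
        rfl
      rw [e1, e2]
      exact h0) k
  exact h

theorem stepD (hE : EvaStmt) (hR : RecStmt) (hG : GalDStmt) (hS : SieStmt) (hA : ZsaDStmt)
    (hB : ZsbDStmt) {d : Type} [Fintype d] [DecidableEq d]
    (H K : Matrix d d (PowerSeries ℚ)) (N : Matrix d d ℤ) (δ : d → ℚ) (q : ℤ[X]) (B : Matrix d d ℤ[X])
    (S : GSysD H K N δ q B) (u : d → ℤ)
    (hu : AA N δ *ᵥ (fun i => (u i : ℚ)) = 0) (i0 : d) (hi0 : u i0 ≠ 0)
    (h : d → PowerSeries ℚ) (hh : h = hv H (fun j => (u j : ℚ))) (I : Finset d) (m e : ℕ)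
    (hm : m = I.card) (hm1 : 1 ≤ m) (ε : d ≃ Fin m ⊕ Fin e) (R : Fin e → d → ℚ[X])
    (hI : Ind h I) (hRB : RelB h R) :
    ∃ (c c2 M : ℕ) (G : ℕ → ℝ) (L0 n1 : ℕ), M = c * m + 3 ∧ ExpB G ∧
      (∀ L, 0 ≤ G L) ∧ 1 ≤ n1 ∧
      ∀ L, L0 ≤ L → ∀ n, n1 ≤ n →
        LinearIndependent ℚ (fun l i => (R l i).eval ((n : ℚ)⁻¹)) ∧
        ∃ v : Fin (m + (L + c2)) → d → ℤ,
        (∀ y : d → ℚ, (∀ k, ∑ i, (v k i : ℚ) * y i = 0) →
          (∀ l, ∑ i, (R l i).eval ((n : ℚ)⁻¹) * y i = 0) → y = 0) ∧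
        (∀ k i, |(v k i : ℝ)| ≤ (n : ℝ) ^ (M * L + c * (m + (L + c2))) * G L) ∧
        (∀ k, |∑ i, (v k i : ℝ) * ev (h i) (n : ℝ)⁻¹| ≤
          (n : ℝ) ^ (M * L + c * (m + (L + c2))) * G L *
            ((n : ℝ)⁻¹) ^ ((m * M - 1) * L)) := by
  obtain ⟨uq, huq⟩ : ∃ uq : d → ℚ, uq = fun j => (u j : ℚ) := ⟨_, rfl⟩
  rw [← huq] at hh
  have huN : AA N δ *ᵥ uq = 0 := by
    rw [huq]
    exact hu
  -- the degree bound
  obtain ⟨c, hc1, hc2⟩ : ∃ c : ℕ, (X * zq q).natDegree ≤ c ∧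
      ∀ i j, (zq (B i j)).natDegree ≤ c := by
    refine ⟨(X * zq q).natDegree + ∑ l : d × d, (zq (B l.1 l.2)).natDegree, by omega, ?_⟩
    intro i j
    have := Finset.single_le_sum (f := fun l : d × d => (zq (B l.1 l.2)).natDegree)
      (fun _ _ => Nat.zero_le _) (Finset.mem_univ (i, j))
    simp only at this
    omega
  obtain ⟨M, hM⟩ : ∃ M, M = c * m + 3 := ⟨_, rfl⟩
  have hM3 : 3 ≤ M := by omega
  have hne : Nonempty {i // i ∈ I} := by
    have : 0 < I.card := by omega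
    obtain ⟨i, hi⟩ := Finset.card_pos.1 this
    exact ⟨⟨i, hi⟩⟩
  have hGh : ∀ i, GType (h i) := by
    intro i
    rw [hh]
    exact GType_hv S.gH uq i
  obtain ⟨Cg, hCg0, hCg⟩ := hG d H K N δ q B S
  obtain ⟨Cs, hCs0, hCs⟩ := hS {i // i ∈ I} (fun l => h l.1) (fun l => hGh _) M (by omega)
  rw [Fintype.card_coe, ← hm] at hCs
  obtain ⟨c0, hc0⟩ := hA d H K N δ q B S uq huN m e ε R (by rw [← hh]; exact hRB)
  obtain ⟨c2, n0, hzb⟩ := hB d H K N δ q B S uq huN m e ε R (by rw [← hh]; exact hRB)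
  rw [← hh] at hc0 hzb
  obtain ⟨ρ, hρ, hρ1, hρs⟩ := exists_radius hE H S.gH
  have hρh : ∀ i, Sm (h i) (2 * ρ) := by
    intro i
    rw [hh]
    exact Sm_hv H uq _ hρs i
  obtain ⟨n3, hn3⟩ := exists_nat_gt (ρ⁻¹)
  obtain ⟨h0, hh0, hhn⟩ : ∃ h0 : ℝ, 0 ≤ h0 ∧ ∀ i, Nm (h i) (2 * ρ) ≤ h0 := by
    refine ⟨∑ i, Nm (h i) (2 * ρ), Finset.sum_nonneg (fun _ _ => Nm_nonneg _ _), ?_⟩
    intro i
    exact Finset.single_le_sum (f := fun i => Nm (h i) (2 * ρ))
      (fun _ _ => Nm_nonneg _ _) (Finset.mem_univ i)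
  obtain ⟨Q, hQ1, hQ⟩ : ∃ Q : ℝ, 1 ≤ Q ∧ ((nrm (zq q) : ℚ) : ℝ) ≤ Q :=
    ⟨max 1 _, le_max_left _ _, le_max_right _ _⟩
  have hρi : 1 ≤ ρ⁻¹ := by
    rw [one_le_inv₀ hρ]
    linarith
  have hCg1 : (1 : ℝ) ≤ Cg := by exact_mod_cast hCg0
  have hCs1 : (1 : ℝ) ≤ Cs := by exact_mod_cast hCs0
  -- the size of `u`
  obtain ⟨U, hU⟩ : ∃ U : ℕ, ∀ s, (u s).natAbs ≤ U :=
    ⟨∑ s, (u s).natAbs, fun s => Finset.single_le_sum (f := fun s => (u s).natAbs)
      (fun _ _ => Nat.zero_le _) (Finset.mem_univ s)⟩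
  let TT : ℕ → ℕ := fun L => m + (L + c2)
  let A : ℕ → ℝ := fun L => (Fintype.card (d × d) : ℝ) *
    (((M : ℝ) * L + 1) * ((U : ℝ) * (Cs : ℝ) ^ L))
  let V : ℕ → ℝ := fun L => (Cg : ℝ) ^ (TT L + 1) * (A L * 2 ^ (M * L) * (Cg : ℝ) ^ (TT L + 1))
  let W : ℕ → ℝ := fun L => (Cg : ℝ) ^ (TT L + 1) *
    ((ρ⁻¹) ^ ((m * M - 1) * L) * (Q ^ TT L * (A L * h0)))
  have hexpA : ExpB A := (ExpB.const (Nat.cast_nonneg _)).mul
    ((ExpB.lin M).mul ((ExpB.const (Nat.cast_nonneg U)).mul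
      (ExpB.geom' hCs1 (fun L => L) 1 0 (fun L => by ring))))
  have hexpC : ExpB (fun L => (Cg : ℝ) ^ (TT L + 1)) :=
    ExpB.geom' hCg1 (fun L => TT L + 1) 1 (m + c2 + 1) (fun L => by simp only [TT]; ring)
  have hexpV : ExpB V := by
    have h2 : ExpB (fun L => (2 : ℝ) ^ (M * L)) :=
      ExpB.geom' one_le_two (fun L => M * L) M 0 (fun L => by ring)
    exact hexpC.mul ((hexpA.mul h2).mul hexpC)
  have hexpW : ExpB W := by
    have h2 : ExpB (fun L => (ρ⁻¹ : ℝ) ^ ((m * M - 1) * L)) :=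
      ExpB.geom' hρi (fun L => (m * M - 1) * L) (m * M - 1) 0 (fun L => by ring)
    have h3 : ExpB (fun L => Q ^ TT L) :=
      ExpB.geom' hQ1 TT 1 (m + c2) (fun L => by simp only [TT]; ring)
    exact hexpC.mul (h2.mul (h3.mul (hexpA.mul (ExpB.const hh0))))
  have hA0 : ∀ L, 0 ≤ A L := fun L => by simp only [A]; positivity
  have hV0 : ∀ L, 0 ≤ V L := fun L => by
    have := hA0 L
    simp only [V]
    positivity
  have hW0 : ∀ L, 0 ≤ W L := fun L => by
    have := hA0 L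
    simp only [W]
    positivity
  have hU0 : |((u i0 : ℤ) : ℝ)| ≤ U := by
    have h1 := hU i0
    have h2 : |((u i0 : ℤ) : ℝ)| = (((u i0).natAbs : ℕ) : ℝ) := by
      rw [Nat.cast_natAbs]
      push_cast
      rfl
    rw [h2]
    exact_mod_cast h1
  have hu1 : (1 : ℚ) ≤ |uq i0| := by
    rw [huq]
    have := Int.one_le_abs hi0
    show (1 : ℚ) ≤ |((u i0 : ℤ) : ℚ)|
    rw [← Int.cast_abs]
    exact_mod_cast this
  refine ⟨c, c2, M, fun L => V L + (U : ℝ) * W L, c0 + 1, max (max n0 n3) 1, hM,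
    ExpB.add hexpV ((ExpB.const (Nat.cast_nonneg U)).mul hexpW), fun L => by
      have := hV0 L
      have := hW0 L
      positivity, le_max_right _ _, ?_⟩
  intro L hL n hn
  have hn1 : 0 < n := lt_of_lt_of_le Nat.one_pos ((le_max_right _ _).trans hn)
  have hnn0 : n0 ≤ n := ((le_max_left _ _).trans (le_max_left _ _)).trans hn
  have hnn3 : n3 ≤ n := ((le_max_right _ _).trans (le_max_left _ _)).trans hn
  have hL1 : 1 ≤ L := by omega
  obtain ⟨P', hP0, hPd, hPc⟩ := hCs L hL1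
  obtain ⟨P, hP⟩ : ∃ P : d → ℤ[X], P = fun i => if hi : i ∈ I then P' ⟨i, hi⟩ else 0 := ⟨_, rfl⟩
  have hPin : ∀ l : {i // i ∈ I}, P l.1 = P' l := by
    intro l
    rw [hP]
    exact dif_pos l.2
  have hPout : ∀ i, i ∉ I → P i = 0 := by
    intro i hi
    rw [hP]
    exact dif_neg hi
  have hPdc : ∀ i, (P i).natDegree ≤ M * L ∧ ∀ k, |(P i).coeff k| ≤ (Cs : ℤ) ^ L := by
    intro i
    by_cases hi : i ∈ I
    · rw [hPin ⟨i, hi⟩]
      exact hPd _
    · rw [hPout i hi]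
      refine ⟨by simp, fun k => ?_⟩
      rw [coeff_zero, abs_zero]
      positivity
  have hsum : ∑ i, ((zq (P i) : ℚ[X]) : PowerSeries ℚ) * h i = ∑ l, zp (P' l) * h l.1 := by
    have h1 : ∑ i, ((zq (P i) : ℚ[X]) : PowerSeries ℚ) * h i =
        ∑ i ∈ I, ((zq (P i) : ℚ[X]) : PowerSeries ℚ) * h i := by
      refine (Finset.sum_subset (Finset.subset_univ I) (fun i _ hi => ?_)).symm
      rw [hPout i hi]
      unfold zq
      rw [Polynomial.map_zero, Polynomial.coe_zero, zero_mul]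
    rw [h1, ← Finset.sum_coe_sort]
    refine Finset.sum_congr rfl (fun l _ => ?_)
    rw [hPin l]
    rfl
  have hcoef : ∀ i < (m * M - 1) * L, PowerSeries.coeff i
      (∑ i, ((zq (P i) : ℚ[X]) : PowerSeries ℚ) * h i) = 0 := by
    intro i hi
    rw [hsum]
    exact hPc i hi
  have hne : ∑ i, ((zq (P i) : ℚ[X]) : PowerSeries ℚ) * h i ≠ 0 := by
    intro h0
    have h1 := hI (fun i => zq (P i)) (fun i hi => by
      rw [hPout i hi]
      unfold zq
      exact Polynomial.map_zero _) h0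
    apply hP0
    funext l
    have h2 := congrFun h1 l.1
    simp only [Pi.zero_apply] at h2 ⊢
    rw [hPin l] at h2
    by_contra h3
    exact zq_ne_zero h3 h2
  have hPdeg' : ∀ i, (zq (P i)).natDegree ≤ M * L := by
    intro i
    rw [natDegree_zq]
    exact (hPdc i).1
  have hdet := hc0 (M * L) (fun i => zq (P i)) hPdeg' hne (fun i hi => hcoef i
    (lt_of_le_of_lt hi (index_lt m M L c0 hm1 hM3 (by omega))))
  obtain ⟨hli, hspan⟩ := hzb (M * L) ((m * M - 1) * L) (L + c2) (fun i => zq (P i)) n hnn0 hPdeg'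
    hcoef hdet (index_le m M L c2 (Nat.mul_pos hm1 (by omega)))
  refine ⟨hli, ?_⟩
  -- denominators and sizes
  obtain ⟨Dg, hD0, hD1, hD⟩ := hCg (TT L)
  obtain ⟨Pm, hPm⟩ : ∃ Pm : Matrix d d ℤ[X], Pm = Matrix.of fun s j => C (u s) * P j := ⟨_, rfl⟩
  have hPmq : Pm.map zq = otr uq (fun j => zq (P j)) := by
    ext1 s j
    rw [hPm, Matrix.map_apply, otr_apply, huq]
    unfold zq
    rw [Matrix.of_apply, Polynomial.map_mul, Polynomial.map_C]
    rfl
  have hPmdeg : ∀ s j, (Pm s j).natDegree ≤ M * L := by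
    intro s j
    rw [hPm]
    exact (Polynomial.natDegree_C_mul_le _ _).trans (hPdc j).1
  have hPn := sum_nrm_le Pm (M * L) (U * Cs ^ L) (fun s j => ⟨hPmdeg s j, fun k => by
    rw [hPm]
    show |(C (u s) * P j).coeff k| ≤ _
    rw [coeff_C_mul, abs_mul]
    push_cast
    refine mul_le_mul ?_ ((hPdc j).2 k) (abs_nonneg _) (by positivity)
    rw [Int.abs_eq_natAbs]
    exact_mod_cast hU s⟩)
  have hspec := hD (M * L) _ Pm hPmdeg hPn
  rw [hPmq] at hspec
  obtain ⟨Z, hZ⟩ : ∃ Z : ℕ → d → ℚ[X], Z = Pv (zq q) (B.map zq) (fun j => zq (P j)) := ⟨_, rfl⟩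
  have hPk : ∀ k, Pk (zq q) (B.map zq) (AA N δ) (otr uq (fun j => zq (P j))) k =
      otr uq (Z k) := by
    intro k
    rw [hZ]
    exact Pk_outer _ _ _ uq huN _ k
  simp only [hPk, otr_apply] at hspec
  rw [← hZ] at hspan
  have hZdeg : ∀ k ≤ TT L, ∀ i, (C (uq i0) * Z k i).natDegree ≤ M * L + c * TT L := by
    intro k hk i
    have h1 := hR.2 d d (zq q) (B.map zq) (AA N δ) (otr uq (fun j => zq (P j)))
      c (M * L) hc1 (fun i j => hc2 i j) (fun s j =>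
        (Polynomial.natDegree_C_mul_le _ _).trans (hPdeg' j)) k i0 i
    rw [hPk] at h1
    exact h1.trans (Nat.add_le_add_left (Nat.mul_le_mul_left _ hk) _)
  have hxabs : |((n : ℚ)⁻¹)| ≤ 1 := by
    rw [abs_of_pos (by positivity)]
    exact inv_le_one_of_one_le₀ (by exact_mod_cast hn1)
  have hv : ∀ (k : Fin (m + (L + c2))) (l : d), ∃ v : ℤ,
      (v : ℚ) = (n : ℚ) ^ (M * L + c * TT L) *
        ((Dg : ℚ) * (C (uq i0) * Z k l).eval ((n : ℚ)⁻¹)) := by
    intro k l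
    obtain ⟨z, hz⟩ := (hspec k (le_of_lt k.2)).1 i0 l
    have hzdeg : z.natDegree ≤ M * L + c * TT L := by
      rw [← natDegree_zq, ← hz]
      exact (Polynomial.natDegree_smul_le _ _).trans (hZdeg k (le_of_lt k.2) _)
    obtain ⟨v, hv⟩ := int_value z (M * L + c * TT L) n hn1 hzdeg
    refine ⟨v, ?_⟩
    rw [hv, ← hz, Polynomial.eval_smul, smul_eq_mul]
  choose v hv using hv
  have hnE : ((n : ℚ) ^ (M * L + c * TT L)) ≠ 0 := pow_ne_zero _ (by exact_mod_cast hn1.ne')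
  have hDne : (Dg : ℚ) ≠ 0 := by exact_mod_cast hD0.ne'
  have hune : uq i0 ≠ 0 := by
    intro h0
    rw [h0, abs_zero] at hu1
    linarith
  have hDle : (Dg : ℚ) ≤ (Cg : ℚ) ^ (TT L + 1) := by exact_mod_cast hD1
  refine ⟨v, ?_, ?_, ?_⟩
  · intro y hy1 hy2
    refine hspan y (fun k hk => ?_) hy2
    have h2 := hy1 ⟨k, hk⟩
    simp only [hv, eval_mul, eval_C] at h2
    have h3 : ∑ i, (n : ℚ) ^ (M * L + c * TT L) *
        ((Dg : ℚ) * (uq i0 * (Z k i).eval ((n : ℚ)⁻¹))) * y i =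
        (n : ℚ) ^ (M * L + c * TT L) * (Dg : ℚ) * uq i0 *
          ∑ i, (Z k i).eval ((n : ℚ)⁻¹) * y i := by
      rw [Finset.mul_sum]
      exact Finset.sum_congr rfl (fun i _ => by ring)
    rw [h3] at h2
    exact (mul_eq_zero.1 h2).resolve_left (mul_ne_zero (mul_ne_zero hnE hDne) hune)
  · intro k l
    have h1 : |(v k l : ℚ)| ≤ (n : ℚ) ^ (M * L + c * TT L) * ((Cg : ℚ) ^ (TT L + 1) *
        ((Fintype.card (d × d) : ℚ) * ((((M * L : ℕ) : ℚ) + 1) * ((U * Cs ^ L : ℕ) : ℚ)) *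
          2 ^ (M * L) * (Cg : ℚ) ^ (TT L + 1))) := by
      rw [hv, abs_mul, abs_mul, abs_of_nonneg (pow_nonneg (Nat.cast_nonneg n) _),
        abs_of_nonneg (Nat.cast_nonneg Dg)]
      refine mul_le_mul_of_nonneg_left ?_ (by positivity)
      refine mul_le_mul hDle ?_ (abs_nonneg _) (by positivity)
      refine (eval_le_nrm _ hxabs).trans ?_
      refine le_trans ?_ (hspec k (le_of_lt k.2)).2
      have e1 : nrm (C (uq i0) * Z k l) ≤ ∑ j, nrm (C (uq i0) * Z k j) :=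
        Finset.single_le_sum (f := fun j => nrm (C (uq i0) * Z k j)) (fun _ _ => nrm_nonneg _)
          (Finset.mem_univ l)
      have e2 : ∑ j, nrm (C (uq i0) * Z k j) ≤ ∑ i, ∑ j, nrm (C (uq i) * Z k j) :=
        Finset.single_le_sum (f := fun i => ∑ j, nrm (C (uq i) * Z k j))
          (fun _ _ => Finset.sum_nonneg (fun _ _ => nrm_nonneg _)) (Finset.mem_univ i0)
      exact e1.trans e2
    have h2 : |(v k l : ℝ)| = ((|(v k l : ℚ)| : ℚ) : ℝ) := by
      push_cast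
      rfl
    rw [h2]
    have h3 : ((|(v k l : ℚ)| : ℚ) : ℝ) ≤ _ := Rat.cast_le.2 h1
    refine h3.trans ?_
    have h4 : (n : ℝ) ^ (M * L + c * TT L) * V L ≤
        (n : ℝ) ^ (M * L + c * TT L) * (V L + (U : ℝ) * W L) := by
      refine mul_le_mul_of_nonneg_left ?_ (by positivity)
      have : 0 ≤ (U : ℝ) * W L := mul_nonneg (Nat.cast_nonneg _) (hW0 L)
      linarith
    refine le_trans (le_of_eq ?_) h4
    simp only [V, A, TT]
    push_cast
    ring
  · intro k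
    have hx : 0 ≤ ((n : ℝ)⁻¹) := by positivity
    have hxρ : ((n : ℝ)⁻¹) ≤ ρ := by
      rw [inv_le_comm₀ (by exact_mod_cast hn1) hρ]
      have : (n3 : ℝ) ≤ n := by exact_mod_cast hnn3
      linarith
    have hcast : (((n : ℚ)⁻¹ : ℚ) : ℝ) = ((n : ℝ)⁻¹) := by push_cast; rfl
    have h2ρ : |(2 * ρ)| = 2 * ρ := abs_of_pos (by linarith)
    have hsm : ∀ i, Sm (h i) (((n : ℚ)⁻¹ : ℚ) : ℝ) := by
      intro i
      refine (hρh i).mono ?_
      rw [hcast, abs_of_nonneg hx, h2ρ]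
      linarith
    have h1 := ev_form hE (Z k) h ((n : ℚ)⁻¹) hsm
    have hrec := rec_coeD S.toGSysW hR (otr uq (fun j => zq (P j))) k
    rw [hPk, trace_outer, trace_outer, ← hh] at hrec
    rw [hrec, hcast] at h1
    have h2 : ∑ l, (v k l : ℝ) * ev (h l) (n : ℝ)⁻¹ =
        (n : ℝ) ^ (M * L + c * TT L) * (Dg : ℝ) * (u i0 : ℝ) *
          ∑ l, (((Z k l).eval ((n : ℚ)⁻¹) : ℚ) : ℝ) * ev (h l) (n : ℝ)⁻¹ := by
      rw [Finset.mul_sum]
      refine Finset.sum_congr rfl (fun l _ => ?_)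
      have h3 : ((v k l : ℤ) : ℝ) = (((v k l : ℤ) : ℚ) : ℝ) := by push_cast; rfl
      rw [h3, hv, eval_mul, eval_C, huq]
      push_cast
      ring
    rw [h2, ← h1, abs_mul, abs_mul, abs_mul,
      abs_of_nonneg (show (0 : ℝ) ≤ (n : ℝ) ^ (M * L + c * TT L) by positivity),
      abs_of_nonneg (show (0 : ℝ) ≤ (Dg : ℝ) by positivity)]
    have hA' : ((∑ i, nrm (zq (P i)) : ℚ) : ℝ) ≤ A L := by
      have e1 : ∑ i, nrm (zq (P i)) ≤ ∑ i, nrm (C (uq i0) * zq (P i)) :=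
        Finset.sum_le_sum (fun i _ => nrm_C_mul _ _ hu1)
      have e2 : ∑ j, nrm (C (uq i0) * zq (P j)) ≤ ∑ i, ∑ j, nrm (C (uq i) * zq (P j)) :=
        Finset.single_le_sum (f := fun i => ∑ j, nrm (C (uq i) * zq (P j)))
          (fun _ _ => Finset.sum_nonneg (fun _ _ => nrm_nonneg _)) (Finset.mem_univ i0)
      have e3 : ∑ i, ∑ j, nrm (C (uq i) * zq (P j)) = ∑ i, ∑ j, nrm (zq (Pm i j)) := by
        refine Finset.sum_congr rfl (fun i _ => Finset.sum_congr rfl (fun j _ => ?_))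
        have := congrFun (congrFun hPmq i) j
        rw [Matrix.map_apply, otr_apply] at this
        rw [this]
      have e4 : ((∑ i, nrm (zq (P i)) : ℚ) : ℝ) ≤ _ :=
        Rat.cast_le.2 ((e1.trans (e2.trans e3.le)).trans hPn)
      refine e4.trans (le_of_eq ?_)
      simp only [A]
      push_cast
      ring
    have hNm := Nm_form (fun j => zq (P j)) h (2 * ρ) (A L) h0 (by rw [h2ρ]; exact hρ1) hρh hA'
      hhn hh0
    have hsv := small_value (zq q) ((m * M - 1) * L) k (TT L) ρ ((n : ℝ)⁻¹) Q (A L * h0) hρ hρ1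
      hx hxρ hcoef (Sm_form _ _ _ hρh) hNm hQ1 hQ (le_of_lt k.2)
    have hDR : (Dg : ℝ) ≤ (Cg : ℝ) ^ (TT L + 1) := by exact_mod_cast hD1
    calc (n : ℝ) ^ (M * L + c * TT L) * (Dg : ℝ) * |(u i0 : ℝ)| *
          |ev (((X * zq q : ℚ[X]) : PowerSeries ℚ) ^ (k : ℕ) *
          hs k (∑ i, ((zq (P i) : ℚ[X]) : PowerSeries ℚ) * h i)) (n : ℝ)⁻¹|
        ≤ (n : ℝ) ^ (M * L + c * TT L) * (Cg : ℝ) ^ (TT L + 1) * (U : ℝ) *
          (((n : ℝ)⁻¹ / ρ) ^ ((m * M - 1) * L) * (Q ^ TT L * (A L * h0))) := by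
          refine mul_le_mul ?_ hsv (abs_nonneg _) (by positivity)
          refine mul_le_mul ?_ hU0 (abs_nonneg _) (by positivity)
          exact mul_le_mul_of_nonneg_left hDR (by positivity)
      _ = (n : ℝ) ^ (M * L + c * TT L) * ((U : ℝ) * W L) * ((n : ℝ)⁻¹) ^ ((m * M - 1) * L) := by
          simp only [W]
          rw [div_eq_mul_inv, mul_pow]
          ring
      _ ≤ (n : ℝ) ^ (M * L + c * TT L) * (V L + (U : ℝ) * W L) *
            ((n : ℝ)⁻¹) ^ ((m * M - 1) * L) := by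
          refine mul_le_mul_of_nonneg_right ?_ (by positivity)
          refine mul_le_mul_of_nonneg_left ?_ (by positivity)
          linarith [hV0 L]

/-- GFVD -/
theorem gfvD (hA : ZsaDStmt) (hB : ZsbDStmt) (hG : GalDStmt) (hS : SieStmt) (hR : RecStmt)
    (hE : EvaStmt) : GfvDStmt := by
  intro d _ _ H K N δ q B S u hu
  obtain ⟨h, hh⟩ : ∃ h, h = hv H (fun j => (u j : ℚ)) := ⟨_, rfl⟩
  rw [← hh]
  by_cases hu0 : u = 0
  · refine ⟨0, fun n _ a _ => ⟨fun i => C (a i), ?_, fun i => eval_C⟩⟩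
    have : h = 0 := by
      rw [hh, hu0]
      funext i
      unfold hv
      simp
    rw [this]
    simp
  obtain ⟨i0, hi0⟩ : ∃ i0, u i0 ≠ 0 := by
    by_contra hc
    push Not at hc
    exact hu0 (funext hc)
  have hGh : ∀ i, GType (h i) := by
    intro i
    rw [hh]
    exact GType_hv S.gH _ i
  have hcc : PowerSeries.constantCoeff (h i0) = (u i0 : ℚ) := by
    rw [hh]
    exact hv_const S.one _ i0
  have hne0 : h i0 ≠ 0 := by
    intro h0
    rw [h0, map_zero] at hcc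
    exact hi0 (by exact_mod_cast hcc.symm)
  obtain ⟨I, e, ε, R, hI, hmax, hRB⟩ := exists_rel h
  obtain ⟨m, hm⟩ : ∃ m, m = I.card := ⟨_, rfl⟩
  have hm1 : 1 ≤ m := by
    have h1 := hmax {i0} (fun p hp hr => by
      rw [Finset.sum_eq_single i0] at hr
      · have h2 := (mul_eq_zero.1 hr).resolve_right hne0
        have h3 : p i0 = 0 := Polynomial.coe_eq_zero_iff.1 h2
        funext i
        by_cases hi : i = i0
        · rw [hi, h3]
          rfl
        · exact hp i (fun hc => hi (Finset.mem_singleton.1 hc))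
      · intro i _ hi
        rw [hp i (fun hc => hi (Finset.mem_singleton.1 hc)), Polynomial.coe_zero, zero_mul]
      · intro hc
        exact absurd (Finset.mem_univ i0) hc)
    rw [Finset.card_singleton] at h1
    omega
  rw [← hm] at ε
  have hcard : Fintype.card d = m + e := by
    rw [Fintype.card_congr ε, Fintype.card_sum, Fintype.card_fin, Fintype.card_fin]
  obtain ⟨n4, hn4⟩ := const_large hE (h i0) (by
    rw [hcc]
    have := Int.one_le_abs hi0
    have h1 : (((u i0 : ℤ) : ℚ) : ℝ) = ((u i0 : ℤ) : ℝ) := by push_cast; rfl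
    rw [h1, ← Int.cast_abs]
    exact_mod_cast this) (hGh i0)
  obtain ⟨ρ, hρ, hρ1, hρs⟩ := exists_radius hE H S.gH
  obtain ⟨n6, hn6⟩ := exists_nat_gt (ρ⁻¹)
  obtain ⟨c, c2, M, G, L0, n1, hM, hGe, hG0, hn11, hstep⟩ :=
    stepD hE hR hG hS hA hB H K N δ q B S u hu i0 hi0 h hh I m e hm hm1 ε R hI hRB
  obtain ⟨n5, hn5⟩ := (hGe.pow (m - 1)).beat
  refine ⟨max (max n1 n4) (max n5 n6), fun n hn a hrel => ?_⟩
  have hnn1 : n1 ≤ n := ((le_max_left _ _).trans (le_max_left _ _)).trans hn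
  have hnn4 : n4 ≤ n := ((le_max_right _ _).trans (le_max_left _ _)).trans hn
  have hnn5 : n5 ≤ n := ((le_max_left _ _).trans (le_max_right _ _)).trans hn
  have hnn6 : n6 ≤ n := ((le_max_right _ _).trans (le_max_right _ _)).trans hn
  have hn1 : 1 ≤ n := hn11.trans hnn1
  have hnR : (1 : ℝ) ≤ n := by exact_mod_cast hn1
  obtain ⟨r, hr⟩ : ∃ r : Fin e → d → ℚ, r = fun l i => (R l i).eval ((n : ℚ)⁻¹) := ⟨_, rfl⟩
  by_cases hmem : a ∈ Submodule.span ℚ (Set.range r)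
  · obtain ⟨lam, hlam⟩ := (Submodule.mem_span_range_iff_exists_fun ℚ).1 hmem
    refine ⟨fun i => ∑ l, C (lam l) * R l i, ?_, fun i => ?_⟩
    · have e1 : ∀ i, ((∑ l, C (lam l) * R l i : ℚ[X]) : PowerSeries ℚ) * h i =
          ∑ l, ((C (lam l) : ℚ[X]) : PowerSeries ℚ) * (((R l i : ℚ[X]) : PowerSeries ℚ) * h i) := by
        intro i
        have e3 := map_sum (Polynomial.coeToPowerSeries.ringHom (R := ℚ))
          (fun l => C (lam l) * R l i) Finset.univ
        simp only [Polynomial.coeToPowerSeries.ringHom_apply] at e3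
        rw [e3, Finset.sum_mul]
        refine Finset.sum_congr rfl (fun l _ => ?_)
        rw [Polynomial.coe_mul, mul_assoc]
      rw [Finset.sum_congr rfl (fun i _ => e1 i), Finset.sum_comm]
      refine Finset.sum_eq_zero (fun l _ => ?_)
      rw [← Finset.mul_sum, hRB.rel, mul_zero]
    · have h1 := congrFun hlam i
      rw [Finset.sum_apply] at h1
      rw [Polynomial.eval_finsetSum, ← h1]
      refine Finset.sum_congr rfl (fun l _ => ?_)
      rw [eval_mul, eval_C, Pi.smul_apply, smul_eq_mul, hr]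
  exfalso
  obtain ⟨hli, -⟩ := hstep L0 le_rfl n hnn1
  rw [← hr] at hli
  -- the integral relations
  obtain ⟨x, hx⟩ : ∃ x : Fin (e + 1) → d → ℚ, x = Fin.cons a r := ⟨_, rfl⟩
  have hxli : LinearIndependent ℚ x := by
    rw [hx]
    exact linearIndependent_finCons.2 ⟨hli, hmem⟩
  obtain ⟨dn, z, hdn, hz⟩ := clear_denoms (fun l : Fin (e + 1) × d => x l.1 l.2)
  obtain ⟨w, hw⟩ : ∃ w : Fin (e + 1) → d → ℤ, w = fun k i => z (k, i) := ⟨_, rfl⟩
  have hwx : (fun (k : Fin (e + 1)) (i : d) => (w k i : ℚ)) = fun k => (dn : ℚ) • x k := by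
    funext k i
    rw [hw, Pi.smul_apply, smul_eq_mul]
    exact (hz (k, i)).symm
  have hdn0 : (dn : ℚ) ≠ 0 := by exact_mod_cast hdn.ne'
  have hwli : LinearIndependent ℚ (fun (k : Fin (e + 1)) (i : d) => (w k i : ℚ)) := by
    rw [hwx]
    exact hxli.units_smul (fun _ => Units.mk0 (dn : ℚ) hdn0)
  have hcast : (((n : ℚ)⁻¹ : ℚ) : ℝ) = ((n : ℝ)⁻¹) := by push_cast; rfl
  have hsm : ∀ i, Sm (h i) (((n : ℚ)⁻¹ : ℚ) : ℝ) := by
    intro i
    rw [hh]
    refine (Sm_hv H _ _ hρs i).mono ?_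
    have hxρ : ((n : ℝ)⁻¹) ≤ ρ := by
      rw [inv_le_comm₀ (by linarith) hρ]
      have : (n6 : ℝ) ≤ n := by exact_mod_cast hnn6
      linarith
    rw [hcast, abs_of_nonneg (by positivity), abs_of_pos (by linarith)]
    linarith
  have hxh : ∀ k, ∑ i, ((x k i : ℚ) : ℝ) * ev (h i) (n : ℝ)⁻¹ = 0 := by
    intro k
    refine Fin.cases ?_ (fun l => ?_) k
    · rw [hx]
      exact hrel
    · rw [hx]
      have h1 := ev_form hE (R l) h ((n : ℚ)⁻¹) hsm
      rw [hRB.rel, ev_zero, hcast] at h1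
      simp only [Fin.cons_succ, hr]
      exact h1.symm
  have hwh : ∀ k, ∑ i, (w k i : ℝ) * ev (h i) (n : ℝ)⁻¹ = 0 := by
    intro k
    have h1 : ∀ i, (w k i : ℝ) = (dn : ℝ) * ((x k i : ℚ) : ℝ) := by
      intro i
      have h2 := congrFun (congrFun hwx k) i
      simp only [Pi.smul_apply, smul_eq_mul] at h2
      have h3 : ((w k i : ℤ) : ℝ) = (((w k i : ℤ) : ℚ) : ℝ) := by push_cast; rfl
      rw [h3, h2]
      push_cast
      ring
    simp only [h1, mul_assoc]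
    rw [← Finset.mul_sum, hxh, mul_zero]
  -- the size of the relations
  obtain ⟨A, hA0, hAw⟩ : ∃ A : ℝ, 0 ≤ A ∧ ∀ k i, |(w k i : ℝ)| ≤ A := by
    refine ⟨∑ l : Fin (e + 1) × d, |(w l.1 l.2 : ℝ)|,
      Finset.sum_nonneg (fun _ _ => abs_nonneg _), fun k i => ?_⟩
    exact Finset.single_le_sum (f := fun l : Fin (e + 1) × d => |(w l.1 l.2 : ℝ)|)
      (fun _ _ => abs_nonneg _) (Finset.mem_univ (k, i))
  obtain ⟨L1, hL1⟩ := hn5 n hnn5 ((Nat.factorial (m + e) : ℝ) * A ^ (e + 1))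
  obtain ⟨L, hL⟩ : ∃ L, L = max (max L0 L1) (c * (m - 1) * (m + c2)) := ⟨_, rfl⟩
  have hLL0 : L0 ≤ L := by
    rw [hL]
    exact (le_max_left _ _).trans (le_max_left _ _)
  have hLL1 : L1 ≤ L := by
    rw [hL]
    exact (le_max_right _ _).trans (le_max_left _ _)
  have hLL2 : c * (m - 1) * (m + c2) ≤ L := by
    rw [hL]
    exact le_max_right _ _
  obtain ⟨-, v, hvs, hvV, hvW⟩ := hstep L hLL0 n hnn1
  have hspan : Submodule.span ℚ (Set.range (fun (k : Fin (e + 1)) (i : d) => (w k i : ℚ)) ∪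
      Set.range (fun (k : Fin (m + (L + c2))) (i : d) => (v k i : ℚ))) = ⊤ := by
    rw [← Set.Sum.elim_range]
    apply span_top_of_dual
    intro y hy
    refine hvs y (fun k => hy (Sum.inr k)) (fun l => ?_)
    have h1 := hy (Sum.inl l.succ)
    simp only [Sum.elim_inl] at h1
    have h2 : ∀ i, (w l.succ i : ℚ) = (dn : ℚ) * (R l i).eval ((n : ℚ)⁻¹) := by
      intro i
      have h3 := congrFun (congrFun hwx l.succ) i
      simp only [Pi.smul_apply, smul_eq_mul] at h3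
      rw [h3, hx, Fin.cons_succ, hr]
    simp only [h2, mul_assoc] at h1
    rw [← Finset.mul_sum] at h1
    exact (mul_eq_zero.1 h1).resolve_left hdn0
  have hfin := det_final (fun i => ev (h i) (n : ℝ)⁻¹) i0 w hwli hwh v hspan A
    ((n : ℝ) ^ (M * L + c * (m + (L + c2))) * G L) (((n : ℝ)⁻¹) ^ ((m * M - 1) * L)) hA0 hAw
    (mul_nonneg (by positivity) (hG0 L)) hvV (by positivity) hvW
  have hce : Fintype.card d - (e + 1) = m - 1 := by omega
  rw [hce, hcard] at hfin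
  have h1 := (hn4 n hnn4).trans hfin
  have h2 := hL1 L hLL1
  have hex := exponents m c c2 M L n hn1 hm1 hM hLL2
  have hGL : 0 ≤ G L := hG0 L
  set E := (n : ℝ) ^ (M * L + c * (m + (L + c2))) with hEdef
  set y := ((n : ℝ)⁻¹) ^ ((m * M - 1) * L) with hydef
  have h3 : (Nat.factorial (m + e) : ℝ) * (A ^ (e + 1) * (E * G L) ^ (m - 1) * y) =
      (Nat.factorial (m + e) : ℝ) * A ^ (e + 1) * G L ^ (m - 1) * (E ^ (m - 1) * y) := by
    rw [mul_pow]
    ring
  rw [h3] at h1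
  have h5 : (Nat.factorial (m + e) : ℝ) * A ^ (e + 1) * G L ^ (m - 1) * (E ^ (m - 1) * y) ≤
      (Nat.factorial (m + e) : ℝ) * A ^ (e + 1) * G L ^ (m - 1) * ((n : ℝ)⁻¹) ^ L :=
    mul_le_mul_of_nonneg_left hex (by positivity)
  linarith

end Pool.Agent.MT100D.H78
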