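import Pool.Agent.Helper78_MTD.Ext

/-! Zero estimates for systems with rational exponents, part 2: the estimate for stable modules. -/

set_option autoImplicit false
set_option linter.unusedSectionVars false

namespace Pool.Agent.MT100D.H78

open Matrix Polynomial Pool.Agent.MT100 Pool.Agent.MT100G Pool.Agent.MT100G.H58
open Pool.Agent.Helper58_MT

variable {d : Type} [Fintype d] [DecidableEq d]

/-- the zero estimate for a stable module -/
theorem coreD (q : ℚ[X]) (hq : q ≠ 0) (B : Matrix d d ℚ[X]) (N : Matrix d d ℚ)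
    (hN : NonRes N) (H K : Matrix d d (PowerSeries ℚ)) (m0 : ℕ)
    (hHK : H * K = (PowerSeries.X ^ m0 : PowerSeries ℚ) • (1 : Matrix d d (PowerSeries ℚ)))
    (hH : co (X * q) • H.map (PowerSeries.derivative ℚ) = B.map co * H - co q • (H * pc N))
    (u : d → ℚ) (ρ : Type) [Fintype ρ] (A0 : ρ → d → ℚ[X]) (hA0 : LinearIndependent ℚ[X] A0)
    (hS : ∀ m, ∀ p ∈ sat (Submodule.span ℚ[X] (Set.range A0)),
      nb q B m p ∈ sat (Submodule.span ℚ[X] (Set.range A0))) (T : ℕ)
    (hT : ∀ x, (PowerSeries.X : PowerSeries ℚ) ^ T ∣ ∑ i, co (A0 x i) * hv H u i) (x0 : ρ)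
    (hne : ∑ i, co (A0 x0 i) * hv H u i ≠ 0) (r : ρ → ℕ)
    (hr : ∀ x i, (A0 x i).natDegree ≤ r x) : T ≤ ∑ x, r x + m0 * Fintype.card d := by
  classical
  set S := Submodule.span ℚ[X] (Set.range A0) with hSdef
  have hcard : Fintype.card ρ ≤ Fintype.card d := by
    have h1 := hA0.cardinalMk_le_finrank
    rw [Module.finrank_fintype_fun_eq_card, Cardinal.mk_fintype] at h1
    exact_mod_cast h1
  obtain ⟨κ, hκ, e, jj, hdet⟩ := completion (Fintype.card d - Fintype.card ρ) ρ A0 (by omega) hA0
  set A : Matrix d d ℚ[X] :=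
    Matrix.of fun i => Sum.elim A0 (fun k => Pi.single (jj k) (1 : ℚ[X])) (e i) with hA
  have hcardd : Fintype.card d = Fintype.card ρ + Fintype.card κ := by
    rw [Fintype.card_congr e, Fintype.card_sum]
  -- orthogonality
  have hG : ∀ k : κ, ∀ p ∈ S, ∑ i, p i * A.adjugate i (e.symm (Sum.inr k)) = 0 := by
    intro k p hp
    rw [hSdef] at hp
    induction hp using Submodule.span_induction with
    | mem p hp =>
        obtain ⟨x, rfl⟩ := hp
        have h1 : (A * A.adjugate) (e.symm (Sum.inl x)) (e.symm (Sum.inr k)) = 0 := by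
          rw [Matrix.mul_adjugate, Matrix.smul_apply, Matrix.one_apply_ne, smul_zero]
          intro h
          exact absurd (e.symm.injective h) (by simp)
        rw [Matrix.mul_apply] at h1
        rw [← h1]
        refine Finset.sum_congr rfl fun i _ => ?_
        rw [hA, Matrix.of_apply, Equiv.apply_symm_apply, Sum.elim_inl]
    | zero => simp
    | add a b _ _ ha hb =>
        simp only [Pi.add_apply, add_mul, Finset.sum_add_distrib, ha, hb, add_zero]
    | smul c a _ ha =>
        simp only [Pi.smul_apply, smul_eq_mul, mul_assoc, ← Finset.mul_sum, ha, mul_zero]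
  -- the constant vectors
  set D0 : Submodule ℚ (d → ℚ) := Submodule.span ℚ (Set.range fun x : ρ × ℕ => wv H (A0 x.1) x.2)
    with hD0
  have horth : ∀ w ∈ D0, ∀ (k : κ) (l : ℕ),
      ∑ i, w i * PowerSeries.coeff l
        (∑ x, K i x * co (A.adjugate x (e.symm (Sum.inr k)))) = 0 := by
    intro w hw k l
    rw [hD0] at hw
    induction hw using Submodule.span_induction with
    | mem w hw =>
        obtain ⟨⟨x, j⟩, rfl⟩ := hw
        exact orthD q hq B N hN H K m0 hHK hH S hS (fun x => A.adjugate x (e.symm (Sum.inr k)))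
          (hG k) (A0 x) (le_sat _ (Submodule.subset_span ⟨x, rfl⟩)) j l
    | zero => simp
    | add a b _ _ ha hb =>
        simp only [Pi.add_apply, add_mul, Finset.sum_add_distrib, ha, hb, add_zero]
    | smul c a _ ha =>
        simp only [Pi.smul_apply, smul_eq_mul, mul_assoc, ← Finset.mul_sum, ha, mul_zero]
  set s := Module.finrank ℚ D0 with hs
  let b := Module.finBasis ℚ D0
  have hbli : LinearIndependent ℚ fun a => (b a : d → ℚ) :=
    b.linearIndependent.map' D0.subtype (Submodule.ker_subtype D0)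
  have hscard : s ≤ Fintype.card d := by
    have := Submodule.finrank_le D0
    rwa [Module.finrank_fintype_fun_eq_card] at this
  have hdetH : H.det * K.det = PowerSeries.X ^ (m0 * Fintype.card d) := by
    rw [← Matrix.det_mul, hHK, Matrix.det_smul, Matrix.det_one, mul_one, ← pow_mul]
  have hs_le : s ≤ Fintype.card ρ := by
    obtain ⟨κ2, hκ2, e2, jj2, hdet2⟩ := completion (Fintype.card d - s) (Fin s)
      (fun a => (b a : d → ℚ)) (by rw [Fintype.card_fin]; omega) hbli
    set Bm : Matrix d d ℚ := Matrix.of fun i =>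
      Sum.elim (fun a => (b a : d → ℚ)) (fun k => Pi.single (jj2 k) (1 : ℚ)) (e2 i) with hBm
    set M : Matrix d d (PowerSeries ℚ) :=
      Bm.map (algebraMap ℚ (PowerSeries ℚ)) * (K * A.adjugate.map co) with hM
    have hMdet : M.det ≠ 0 := by
      rw [hM, Matrix.det_mul, Matrix.det_mul]
      refine mul_ne_zero ?_ (mul_ne_zero ?_ ?_)
      · rw [← RingHom.mapMatrix_apply, ← RingHom.map_det]
        exact (map_ne_zero_iff _ (algebraMap ℚ (PowerSeries ℚ)).injective).2 hdet2
      · intro h
        rw [h, mul_zero] at hdetH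
        exact pow_ne_zero _ PowerSeries.X_ne_zero hdetH.symm
      · have h1 : (A.adjugate.map co).det = co A.adjugate.det := by
          have := RingHom.map_det (co : ℚ[X] →+* PowerSeries ℚ) A.adjugate
          exact this.symm
        rw [h1, Matrix.det_adjugate, map_pow]
        exact pow_ne_zero _ fun h => hdet (co_eq_zero.1 h)
    have hzero : ∀ (a : Fin s) (k : κ), M (e2.symm (Sum.inl a)) (e.symm (Sum.inr k)) = 0 := by
      intro a k
      ext l
      rw [hM, Matrix.mul_apply, map_sum, map_zero]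
      rw [← horth (b a : d → ℚ) (b a).2 k l]
      refine Finset.sum_congr rfl fun i _ => ?_
      rw [Matrix.map_apply, ← PowerSeries.C_eq_algebraMap, PowerSeries.coeff_C_mul,
        Matrix.mul_apply, hBm, Matrix.of_apply, Equiv.apply_symm_apply, Sum.elim_inl]
      rfl
    have h2 := card_le_of_zero_block M hMdet
      ((Finset.univ : Finset (Fin s)).map
        ⟨fun a => e2.symm (Sum.inl a), fun a a' h => by simpa using h⟩)
      ((Finset.univ : Finset κ).map
        ⟨fun k => e.symm (Sum.inr k), fun a a' h => by simpa using h⟩) (by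
        intro i hi j hj
        obtain ⟨a, _, rfl⟩ := Finset.mem_map.1 hi
        obtain ⟨k, _, rfl⟩ := Finset.mem_map.1 hj
        exact hzero a k)
    rw [Finset.card_map, Finset.card_map, Finset.card_univ, Finset.card_univ,
      Fintype.card_fin] at h2
    omega
  -- a family of `ρ` vectors whose span contains `D0`
  obtain ⟨Dm, hDm⟩ : ∃ Dm : ρ → d → ℚ, D0 ≤ Submodule.span ℚ (Set.range Dm) := by
    obtain ⟨ι⟩ := Function.Embedding.nonempty_of_card_le
      (show Fintype.card (Fin s) ≤ Fintype.card ρ by rw [Fintype.card_fin]; exact hs_le)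
    refine ⟨Function.extend ι (fun a => (b a : d → ℚ)) 0, ?_⟩
    intro w hw
    have h1 := b.sum_repr ⟨w, hw⟩
    have h2 : w = ∑ a, b.repr ⟨w, hw⟩ a • (b a : d → ℚ) := by
      have := congrArg Subtype.val h1
      simp only [Submodule.coe_sum, Submodule.coe_smul] at this
      exact this.symm
    rw [h2]
    refine Submodule.sum_mem _ fun a _ => Submodule.smul_mem _ _ (Submodule.subset_span ?_)
    exact ⟨ι a, ι.injective.extend_apply _ _ _⟩
  have hcf : ∀ (x : ρ) (j : ℕ), ∃ c : ρ → ℚ, ∑ a, c a • Dm a = wv H (A0 x) j := by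
    intro x j
    have h1 : wv H (A0 x) j ∈ Submodule.span ℚ (Set.range Dm) :=
      hDm (Submodule.subset_span ⟨(x, j), rfl⟩)
    exact (Submodule.mem_span_range_iff_exists_fun ℚ).1 h1
  choose c hc using hcf
  set Λ : Matrix ρ ρ (PowerSeries ℚ) := Matrix.of fun x a => PowerSeries.mk fun j => c x j a
    with hΛ
  have hfac : ∀ x i, ∑ a, Λ x a * PowerSeries.C (Dm a i) = ∑ y, co (A0 x y) * H y i := by
    intro x i
    ext j
    rw [map_sum]
    have h1 := congrFun (hc x j) i
    rw [Finset.sum_apply] at h1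
    rw [show PowerSeries.coeff j (∑ y, co (A0 x y) * H y i) = wv H (A0 x) j i from rfl, ← h1]
    refine Finset.sum_congr rfl fun a _ => ?_
    rw [PowerSeries.coeff_mul_C, hΛ, Matrix.of_apply, PowerSeries.coeff_mk, Pi.smul_apply,
      smul_eq_mul]
  -- the constant vector
  set u' : ρ → ℚ := fun a => ∑ i, Dm a i * u i with hu'
  have hval : ∀ x, ∑ a, Λ x a * PowerSeries.C (u' a) = ∑ i, co (A0 x i) * hv H u i := by
    intro x
    have h1 : ∑ i, co (A0 x i) * hv H u i
        = ∑ j, (∑ y, co (A0 x y) * H y j) * PowerSeries.C (u j) := by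
      simp only [hv, Finset.mul_sum, Finset.sum_mul]
      rw [Finset.sum_comm]
      refine Finset.sum_congr rfl fun j _ => Finset.sum_congr rfl fun y _ => ?_
      ring
    rw [h1]
    simp only [← hfac, hu', map_sum, map_mul, Finset.mul_sum, Finset.sum_mul]
    rw [Finset.sum_comm]
    refine Finset.sum_congr rfl fun j _ => Finset.sum_congr rfl fun y _ => ?_
    ring
  obtain ⟨a0, ha0⟩ : ∃ a, u' a ≠ 0 := by
    by_contra hcon
    push Not at hcon
    apply hne
    rw [← hval]
    refine Finset.sum_eq_zero fun a _ => ?_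
    rw [hcon a, map_zero, mul_zero]
  have hdvdΛ : (PowerSeries.X : PowerSeries ℚ) ^ T ∣ Λ.det := by
    set v : ρ → PowerSeries ℚ := fun a => PowerSeries.C (u' a) with hv'
    have h1 : ∀ x, (PowerSeries.X : PowerSeries ℚ) ^ T ∣ (Λ *ᵥ v) x := by
      intro x
      have := hT x
      rw [← hval] at this
      exact this
    have h2 : Λ.det • v = Λ.adjugate *ᵥ (Λ *ᵥ v) := by
      rw [Matrix.mulVec_mulVec, Matrix.adjugate_mul, Matrix.smul_mulVec, Matrix.one_mulVec]
    have h3 := congrFun h2 a0
    rw [Pi.smul_apply, smul_eq_mul] at h3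
    have h4 : (PowerSeries.X : PowerSeries ℚ) ^ T ∣ Λ.det * v a0 := by
      rw [h3]
      simp only [Matrix.mulVec, dotProduct] at h1 ⊢
      exact Finset.dvd_sum fun k _ => Dvd.dvd.mul_left (h1 k) _
    have h5 : IsUnit (v a0) := (IsUnit.mk0 (u' a0) ha0).map PowerSeries.C
    exact h5.dvd_mul_right.1 h4
  -- the determinant of `A`
  have hprod : ∃ z, co A.det * H.det = Λ.det * z := by
    set Y : κ → d → PowerSeries ℚ := fun k i =>
      ∑ y, co ((Pi.single (jj k) (1 : ℚ[X]) : d → ℚ[X]) y) * H y i
      with hY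
    set Q : Matrix (ρ ⊕ κ) d (PowerSeries ℚ) :=
      Matrix.of (Sum.elim (fun a i => PowerSeries.C (Dm a i)) Y) with hQ
    have h1 : (A.map co) * H = (Matrix.fromBlocks Λ 0 0 (1 : Matrix κ κ (PowerSeries ℚ)) * Q).submatrix e id := by
      ext1 i j
      rw [Matrix.submatrix_apply, Matrix.mul_apply, Matrix.mul_apply, Fintype.sum_sum_type]
      rcases hi : e i with x | k
      · have h2 : ∀ y, (A.map co) i y = co (A0 x y) := by
          intro y
          rw [Matrix.map_apply, hA, Matrix.of_apply, hi, Sum.elim_inl]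
        simp only [h2, Matrix.fromBlocks_apply₁₁, Matrix.fromBlocks_apply₁₂, Matrix.zero_apply,
          zero_mul, Finset.sum_const_zero, add_zero, hQ, Matrix.of_apply, Sum.elim_inl, id]
        exact (hfac x j).symm
      · have h2 : ∀ y, (A.map co) i y = co ((Pi.single (jj k) (1 : ℚ[X]) : d → ℚ[X]) y) := by
          intro y
          rw [Matrix.map_apply, hA, Matrix.of_apply, hi, Sum.elim_inr]
        simp only [h2, Matrix.fromBlocks_apply₂₁, Matrix.fromBlocks_apply₂₂, Matrix.zero_apply,
          zero_mul, Finset.sum_const_zero, zero_add, hQ, Matrix.of_apply, Sum.elim_inr, id,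
          Matrix.one_apply, ite_mul, one_mul, Finset.sum_ite_eq, Finset.mem_univ, if_true, hY]
    have h3 : co A.det * H.det = ((A.map co) * H).det := by
      rw [Matrix.det_mul]
      congr 1
      exact RingHom.map_det (co : ℚ[X] →+* PowerSeries ℚ) A
    refine ⟨(Q.submatrix e id).det, ?_⟩
    rw [h3, h1]
    have h4 : (Matrix.fromBlocks Λ 0 0 (1 : Matrix κ κ (PowerSeries ℚ)) * Q).submatrix e id
        = (Matrix.fromBlocks Λ 0 0 (1 : Matrix κ κ (PowerSeries ℚ))).submatrix e e
          * Q.submatrix e id := by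
      rw [Matrix.submatrix_mul_equiv]
    rw [h4, Matrix.det_mul, Matrix.det_submatrix_equiv_self, Matrix.det_fromBlocks_zero₁₂,
      Matrix.det_one, mul_one]
  obtain ⟨z, hz⟩ := hprod
  have hXA : X ^ (T - m0 * Fintype.card d) ∣ A.det := by
    have h1 : (PowerSeries.X : PowerSeries ℚ) ^ T ∣ co A.det * H.det := by
      rw [hz]; exact Dvd.dvd.mul_right hdvdΛ _
    have h2 : (PowerSeries.X : PowerSeries ℚ) ^ T ∣
        co A.det * PowerSeries.X ^ (m0 * Fintype.card d) := by
      rw [← hdetH, ← mul_assoc]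
      exact Dvd.dvd.mul_right h1 _
    have h3 : (PowerSeries.X : PowerSeries ℚ) ^ (T - m0 * Fintype.card d) ∣ co A.det := by
      rcases le_total (m0 * Fintype.card d) T with h | h
      · rw [← Nat.sub_add_cancel h, pow_add] at h2
        exact (mul_dvd_mul_iff_right (pow_ne_zero _ PowerSeries.X_ne_zero)).1 h2
      · rw [Nat.sub_eq_zero_of_le h, pow_zero]
        exact one_dvd _
    rw [co_apply, PowerSeries.X_pow_dvd_iff] at h3
    rw [Polynomial.X_pow_dvd_iff]
    intro m hm
    have := h3 m hm
    rwa [Polynomial.coeff_coe] at this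
  have hdeg := (natDegree_le_of_dvd hXA hdet).trans (det_natDegree_le A
    (fun i => Sum.elim r (fun _ => 0) (e i)) (by
      intro i j
      rw [hA, Matrix.of_apply]
      rcases hi : e i with x | k
      · exact hr x j
      · simp only [Sum.elim_inr]
        rw [Pi.single_apply]
        split_ifs <;> simp))
  rw [natDegree_X_pow] at hdeg
  have hsum : ∑ i, Sum.elim r (fun _ => 0) (e i) = ∑ x, r x := by
    rw [Equiv.sum_comp e (Sum.elim r fun _ => 0), Fintype.sum_sum_type]
    simp
  rw [hsum] at hdeg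
  omega

end Pool.Agent.MT100D.H78
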