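import Pool.Agent.Helper58_MTG.Zsb

/-! Zero estimates for systems with rational exponents, part 1: the extraction lemma without
nilpotency. -/

set_option autoImplicit false
set_option linter.unusedSectionVars false

namespace Pool.Agent.MT100D.H78

open Matrix Polynomial Pool.Agent.MT100 Pool.Agent.MT100G Pool.Agent.MT100G.H58
open Pool.Agent.Helper58_MT

variable {d : Type} [Fintype d] [DecidableEq d]

/-- polynomials in `j + A` separate the different natural numbers `j` -/
def NonRes (A : Matrix d d ℚ) : Prop :=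
  ∀ L j0 : ℕ, ∃ f : ℚ[X],
    (∀ j ≤ L, j ≠ j0 → aeval (algebraMap ℚ (Matrix d d ℚ) (j : ℚ) + A) f = 0) ∧
      aeval (algebraMap ℚ (Matrix d d ℚ) (j0 : ℚ) + A) f = 1

/-- matrices with a minimal polynomial whose roots are in `[0,1)` -/
theorem nonRes_of (A : Matrix d d ℚ) (s : Finset ℚ) (hs : ∀ x ∈ s, 0 ≤ x ∧ x < 1) (e : ℕ)
    (hA : aeval A ((∏ x ∈ s, (X - C x)) ^ e : ℚ[X]) = 0) : NonRes A := by
  classical
  intro L j0
  obtain ⟨g, hg⟩ : ∃ g : ℕ → ℚ[X], g = fun j : ℕ => (∏ x ∈ s, (X - C ((j : ℚ) + x))) ^ e :=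
    ⟨_, rfl⟩
  have hval : ∀ j : ℕ, aeval (algebraMap ℚ (Matrix d d ℚ) (j : ℚ) + A) (g j) = 0 := by
    intro j
    have h1 : (g j).comp (C (j : ℚ) + X) = (∏ x ∈ s, (X - C x)) ^ e := by
      rw [hg]
      simp only [pow_comp, prod_comp, sub_comp, X_comp, C_comp]
      congr 1
      apply Finset.prod_congr rfl
      intro x _
      rw [C_add]
      ring
    rw [← hA, ← h1, aeval_comp]
    congr 2
    rw [map_add, aeval_C, aeval_X]
  have hco : IsCoprime (g j0) (∏ j ∈ (Finset.range (L + 1)).erase j0, g j) := by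
    refine IsCoprime.prod_right fun j hj => ?_
    have hne := (Finset.mem_erase.1 hj).1
    rw [hg]
    simp only
    refine IsCoprime.pow (IsCoprime.prod_left fun x hx => IsCoprime.prod_right fun y hy => ?_)
    refine Polynomial.isCoprime_X_sub_C_of_isUnit_sub ?_
    rw [isUnit_iff_ne_zero]
    intro h
    obtain ⟨hx0, hx1⟩ := hs x hx
    obtain ⟨hy0, hy1⟩ := hs y hy
    apply hne
    have h2 : (j0 : ℚ) < j + 1 := by linarith
    have h3 : (j : ℚ) < j0 + 1 := by linarith
    have h4 : j0 < j + 1 := by exact_mod_cast h2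
    have h5 : j < j0 + 1 := by exact_mod_cast h3
    omega
  obtain ⟨a, b, hab⟩ := hco
  refine ⟨b * ∏ j ∈ (Finset.range (L + 1)).erase j0, g j, ?_, ?_⟩
  · intro j hj hne
    obtain ⟨c, hc⟩ := Finset.dvd_prod_of_mem g (Finset.mem_erase.2
      ⟨hne, Finset.mem_range.2 (Nat.lt_succ_of_le hj)⟩)
    rw [hc, map_mul, map_mul, hval j, zero_mul, mul_zero]
  · have h1 : b * ∏ j ∈ (Finset.range (L + 1)).erase j0, g j = 1 - a * g j0 := by
      linear_combination hab
    rw [h1, map_sub, map_one, map_mul, hval j0, mul_zero, sub_zero]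

/-- the operator `Z ↦ Z * A` -/
theorem aeval_ad (A : Matrix d d ℚ) (j : ℕ) (f : ℚ[X]) (Z : Matrix Unit d ℚ) :
    aeval (algebraMap ℚ (Module.End ℚ (Matrix Unit d ℚ)) (j : ℚ) +
      ad A (0 : Matrix Unit Unit ℚ)) f Z =
      Z * aeval (algebraMap ℚ (Matrix d d ℚ) (j : ℚ) + A) f := by
  have key : ∀ n : ℕ, ∀ Z : Matrix Unit d ℚ,
      ((algebraMap ℚ (Module.End ℚ (Matrix Unit d ℚ)) (j : ℚ) +
        ad A (0 : Matrix Unit Unit ℚ)) ^ n) Z =
      Z * (algebraMap ℚ (Matrix d d ℚ) (j : ℚ) + A) ^ n := by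
    intro n
    induction n with
    | zero => intro Z; simp
    | succ n ih =>
      intro Z
      rw [pow_succ', Module.End.mul_apply, ih, LinearMap.add_apply, Module.algebraMap_end_apply,
        ad_apply, Matrix.zero_mul, sub_zero, pow_succ, ← Matrix.mul_assoc, Matrix.mul_add,
        Algebra.algebraMap_eq_smul_one (R := ℚ) (A := Matrix d d ℚ), Matrix.mul_smul,
        Matrix.mul_one]
  induction f using Polynomial.induction_on' with
  | add p q hp hq => simp only [map_add, LinearMap.add_apply, hp, hq, Matrix.mul_add]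
  | monomial n c =>
    rw [aeval_monomial, aeval_monomial, Module.End.mul_apply, Module.algebraMap_end_apply, key,
      ← Algebra.smul_def, Matrix.mul_smul]

/-- the extraction lemma -/
theorem extractD (A : Matrix d d ℚ) (hA : NonRes A) (W : Matrix Unit d (PowerSeries ℚ))
    (F : Matrix d Unit (PowerSeries ℚ))
    (h : ∀ f : ℚ[X], trace (aeval (nab A (0 : Matrix Unit Unit ℚ)) f W * F) = 0) (j l : ℕ) :
    trace (cf j W * cf l F) = 0 := by
  obtain ⟨f, hf1, hf2⟩ := hA (j + l) j
  have hz : ∀ j' ≤ j + l, j' ≠ j → cf j' (aeval (nab A (0 : Matrix Unit Unit ℚ)) f W) = 0 := by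
    intro j' hj' hne
    rw [cf_aeval, aeval_ad, hf1 j' hj' hne, Matrix.mul_zero]
  have hj0 : cf j (aeval (nab A (0 : Matrix Unit Unit ℚ)) f W) = cf j W := by
    rw [cf_aeval, aeval_ad, hf2, Matrix.mul_one]
  have h1 := congrArg (PowerSeries.coeff (j + l)) (h f)
  rw [map_zero] at h1
  have h2 : PowerSeries.coeff (j + l)
      (trace (aeval (nab A (0 : Matrix Unit Unit ℚ)) f W * F))
      = ∑ p ∈ Finset.HasAntidiagonal.antidiagonal (j + l),
        trace (cf p.1 (aeval (nab A (0 : Matrix Unit Unit ℚ)) f W) * cf p.2 F) := by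
    simp only [trace, diag_apply, Matrix.mul_apply, map_sum, PowerSeries.coeff_mul, cf_apply]
    symm
    rw [Finset.sum_comm]
    refine Finset.sum_congr rfl fun x _ => ?_
    rw [Finset.sum_comm]
  rw [h2, Finset.sum_eq_single (j, l)] at h1
  · rw [← hj0]; exact h1
  · rintro ⟨a, b⟩ hab hne
    have hab' := Finset.HasAntidiagonal.mem_antidiagonal.1 hab
    simp only at hab'
    have : a ≠ j := by
      rintro rfl
      apply hne
      have : b = l := by omega
      rw [this]
    simp only
    rw [hz a (by omega) this, Matrix.zero_mul, trace_zero]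
  · intro hni
    exact absurd (Finset.HasAntidiagonal.mem_antidiagonal.2 (rfl : j + l = j + l)) hni

/-- orthogonality of all coefficients -/
theorem orthD (q : ℚ[X]) (hq : q ≠ 0) (B : Matrix d d ℚ[X]) (N : Matrix d d ℚ)
    (hN : NonRes N) (H K : Matrix d d (PowerSeries ℚ)) (m0 : ℕ)
    (hHK : H * K = (PowerSeries.X ^ m0 : PowerSeries ℚ) • (1 : Matrix d d (PowerSeries ℚ)))
    (hH : co (X * q) • H.map (PowerSeries.derivative ℚ) = B.map co * H - co q • (H * pc N))
    (S : Submodule ℚ[X] (d → ℚ[X])) (hS : ∀ m, ∀ p ∈ sat S, nb q B m p ∈ sat S)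
    (G : d → ℚ[X]) (hG : ∀ p ∈ S, ∑ i, p i * G i = 0) (p : d → ℚ[X]) (hp : p ∈ sat S)
    (j l : ℕ) : ∑ i, wv H p j i * PowerSeries.coeff l (∑ x, K i x * co (G x)) = 0 := by
  -- orthogonality on the saturation
  have hG' : ∀ p ∈ sat S, ∑ i, p i * G i = 0 := by
    rintro p ⟨f, hf, hfp⟩
    have h1 := hG _ hfp
    simp only [Pi.smul_apply, smul_eq_mul, mul_assoc] at h1
    rw [← Finset.mul_sum] at h1
    exact (mul_eq_zero.1 h1).resolve_left hf
  set G' : Matrix d Unit ℚ[X] := Matrix.of fun i _ => G i with hG'def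
  have horth : ∀ m, trace (pk q B (0 : Matrix Unit Unit ℚ) (rr p) m * G') = 0 := by
    intro m
    rw [← rr_Pv]
    have := hG' _ (Pv_sat q B S hS p hp m)
    simpa [trace, Matrix.mul_apply, rr, hG'def] using this
  set F : Matrix d Unit (PowerSeries ℚ) := K * G'.map co with hF
  have hHF : H * F = (PowerSeries.X ^ m0 : PowerSeries ℚ) • G'.map co := by
    rw [hF, ← Matrix.mul_assoc, hHK, Matrix.smul_mul, Matrix.one_mul]
  set W : Matrix Unit d (PowerSeries ℚ) := (rr p).map co * H with hW
  have htr : ∀ m, trace (aeval (nab N 0) (bet m) W * F) = 0 := by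
    intro m
    have h1 : trace ((pk q B (0 : Matrix Unit Unit ℚ) (rr p) m).map co * H * F) = 0 := by
      rw [Matrix.mul_assoc, hHF, Matrix.mul_smul, trace_smul]
      have h2 := congrArg co (horth m)
      rw [map_zero] at h2
      have h3 : trace ((pk q B (0 : Matrix Unit Unit ℚ) (rr p) m).map co * G'.map co) = 0 := by
        rw [← h2]
        simp only [trace, diag_apply, Matrix.mul_apply, Matrix.map_apply, map_sum, map_mul]
      rw [h3, smul_zero]
    rw [pk_nab q B N 0 H hH (rr p) m, Matrix.smul_mul, trace_smul, smul_eq_mul] at h1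
    exact (mul_eq_zero.1 h1).resolve_left (pow_ne_zero _ fun h => hq (co_eq_zero.1 h))
  have hall : ∀ f : ℚ[X], trace (aeval (nab N 0) f W * F) = 0 := by
    intro f
    let S : Submodule ℚ ℚ[X] :=
      { carrier := {f | trace (aeval (nab N 0) f W * F) = 0}
        add_mem' := by
          intro a b ha hb
          simp only [Set.mem_ofPred_eq] at ha hb ⊢
          rw [map_add, LinearMap.add_apply, Matrix.add_mul, trace_add, ha, hb, add_zero]
        zero_mem' := by simp
        smul_mem' := by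
          intro c a ha
          simp only [Set.mem_ofPred_eq] at ha ⊢
          rw [map_smul, LinearMap.smul_apply, Matrix.smul_mul, trace_smul, ha, smul_zero] }
    exact bet_span S htr f
  have hext := extractD N hN W F hall j l
  rw [← hext]
  simp only [trace, Finset.univ_unique, diag_apply, Finset.sum_singleton, Matrix.mul_apply,
    cf_apply]
  refine Finset.sum_congr rfl fun i _ => ?_
  rfl

end Pool.Agent.MT100D.H78
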