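import Pool.Agent.Helper78_MTD.Cst
import Pool.Agent.Helper97_MTD.Ass

/-! MT100-D: Hodge genericity and the zero-one law, for every one parameter family. -/

set_option autoImplicit false

namespace Pool.Agent.MT100D.H78C

open Matrix Polynomial Pool.Agent.MT100 Pool.Agent.MT100G Pool.Agent.MT100A Pool.Agent.Helper78_MT

universe u

theorem finC' (d : Type) [Fintype d] [DecidableEq d] (F : Family d) (w : ℕ) (lev : d → ℕ)
    (hw : 1 ≤ w) :
    ∃ (C : ℕ) (n1 : ℕ → ℕ) (n0 : ℕ), ∀ P : Matrix d d ℂ, IsUnit P.det → F.IntM P →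
      ∃ S : Set ℕ, DensZero S ∧
        (∀ K n : ℕ, n1 K ≤ n → Nat.card {m : ℕ // m ∈ S ∧ n < m + K ∧ m ≤ n} ≤ C) ∧
        (∀ n : ℕ, n ∉ S → ∀ (E : Matrix d d ℚ) (V : ℕ → Submodule ℂ (d → ℂ)),
          F.Fibre lev P w n E V →
          (∀ (K : Type u) [Field K] [CharZero K], mtGroup w V K = GenM (F.Mo P) w V K) ∧
          ∀ R : ℝ, n0 ≤ R → R < n → F.FixedPart lev P w R →
            ∀ x : ℂ, R < x.re → ∀ (E' : Matrix d d ℚ) (V' : ℕ → Submodule ℂ (d → ℂ)),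
            PolHodge w E' V' → F.HasFil lev P x V' →
            ∀ (K : Type u) [Field K] [CharZero K], mtGroup w V' K ⊆ mtGroup w V K) ∧
        ∀ ρ : (ℓ : ℕ) → [Fact ℓ.Prime] → MTL.GT →* GL d ℚ_[ℓ],
          (∀ (ℓ : ℕ) [Fact ℓ.Prime], Continuous (ρ ℓ)) →
          ∃ (T : Set ℕ) (N : ℕ → ℕ), DensZero T ∧ ∀ (ℓ : ℕ) [Fact ℓ.Prime] (n : ℕ),
            n ∉ S → n ∉ T → N ℓ ≤ n →
            ∀ (E : Matrix d d ℚ) (V : ℕ → Submodule ℂ (d → ℂ)), F.Fibre lev P w n E V →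
            ∀ ρn : MTL.GQ →* GL d ℚ_[ℓ], MTL.Specializes (ρ ℓ) n ρn →
            ∀ (K : Type u) [Field K] [CharZero K] [Algebra ℚ_[ℓ] K],
              (monodromy ρn K = mtGroup w V K ↔ monodromy (ρ ℓ) K = GenM (F.Mo P) w V K) ∧
              ∀ R : ℝ, n0 ≤ R → R < n → F.FixedPart lev P w R →
                ∀ n' : ℕ, n' ∉ S → n' ∉ T → N ℓ ≤ n' → R < n' →
                ∀ (E' : Matrix d d ℚ) (V' : ℕ → Submodule ℂ (d → ℂ)), F.Fibre lev P w n' E' V' →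
                ∀ ρn' : MTL.GQ →* GL d ℚ_[ℓ], MTL.Specializes (ρ ℓ) n' ρn' →
                  (monodromy ρn K = mtGroup w V K ↔ monodromy ρn' K = mtGroup w V' K) :=
  finC H97.ela' H97.bas d F w lev hw

end Pool.Agent.MT100D.H78C
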