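import Pool.Agent.Helper39_MT.Gal
import Pool.Agent.Helper34_MTQ.Bin

/-! MT100-D, module GAL: denominators and size of the `Pₖ`, for the local exponent matrix
`A = N + Q` with `N` nilpotent and `Q` commuting with `N`, with binomials of geometric growth
(for example `Q` diagonal with rational entries).  Part 1: the main identity. -/

set_option autoImplicit false
set_option linter.unusedSectionVars false

namespace Pool.Agent.MT100D.H78

open Matrix Polynomial Pool.Agent.MT100 Pool.Agent.Helper39_MT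
open Finset.HasAntidiagonal (antidiagonal mem_antidiagonal)

variable {d : Type*} [Fintype d] [DecidableEq d]

/-- a constant rational matrix -/
noncomputable def cq (A : Matrix d d ℚ) : Matrix d d (PowerSeries ℚ) :=
  A.map (fun x => PowerSeries.C x)

theorem hs_mul_C (b : ℕ) (f : PowerSeries ℚ) (z : ℚ) : hs b (f * PowerSeries.C z) =
    hs b f * PowerSeries.C z := by
  ext i
  rw [hs, hs, PowerSeries.coeff_mul_C, PowerSeries.coeff_mk, PowerSeries.coeff_mk,
    PowerSeries.coeff_mul_C]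
  ring

theorem hsM_mul_cq (b : ℕ) (X : Matrix d d (PowerSeries ℚ)) (A : Matrix d d ℚ) :
    hsM b (X * cq A) = hsM b X * cq A := by
  ext i j : 1
  simp only [hsM, cq, Matrix.map_apply, Matrix.mul_apply, hs_sum, hs_mul_C]

theorem hsM_cq_mul (b : ℕ) (X : Matrix d d (PowerSeries ℚ)) (A : Matrix d d ℚ) :
    hsM b (cq A * X) = cq A * hsM b X := by
  ext i j : 1
  simp only [hsM, cq, Matrix.map_apply, Matrix.mul_apply, hs_sum]
  apply Finset.sum_congr rfl
  intro k _
  rw [mul_comm, hs_mul_C, mul_comm]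

/-- the constant terms of the main identity -/
noncomputable def GqA (A : Matrix d d ℚ) (F : Matrix d d (PowerSeries ℚ)) :
    ℕ → Matrix d d (PowerSeries ℚ)
  | 0 => F
  | j + 1 => ((j : ℚ) + 1)⁻¹ • (GqA A F j * cq A - cq A * GqA A F j - (j : ℚ) • GqA A F j)

theorem GqA_succ (A : Matrix d d ℚ) (F : Matrix d d (PowerSeries ℚ)) (j : ℕ) :
    GqA A F j * cq A - cq A * GqA A F j =
      ((j : ℚ) + 1) • GqA A F (j + 1) + (j : ℚ) • GqA A F j := by
  have h : ((j : ℚ) + 1) ≠ 0 := by positivity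
  rw [GqA, smul_smul, mul_inv_cancel₀ h, one_smul]
  abel

/-- MAIN IDENTITY. -/
theorem Pk_mulA (q : ℚ[X]) (B : Matrix d d ℚ[X]) (A : Matrix d d ℚ) (H : Matrix d d (PowerSeries ℚ))
    (P : Matrix d d ℚ[X])
    (hode : (((X * q : ℚ[X]) : PowerSeries ℚ)) • H.map dv = pm B * H - (q : PowerSeries ℚ) • (H * cq A))
    (k : ℕ) : pm (Pk q B A P k) * H =
      ∑ x ∈ antidiagonal k, ((q : PowerSeries ℚ) ^ x.1 * ((X * q : ℚ[X]) : PowerSeries ℚ) ^ x.2) •
        hsM x.2 (GqA A (pm P * H) x.1) := by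
  induction k with
  | zero =>
    have : hsM 0 (pm P * H) = pm P * H := by
      ext i j : 1
      simp only [hsM, Matrix.map_apply, hs_zero]
    simp [Pk, GqA, this]
  | succ k ih =>
    have hk : ((k : ℚ) + 1) ≠ 0 := by positivity
    have hcm : pm (A.map C) = cq A := by
      ext i j : 1
      show ((C (A i j) : ℚ[X]) : PowerSeries ℚ) = PowerSeries.C (A i j)
      rw [Polynomial.coe_C]
    have e1 : ((k : ℚ) + 1) • (pm (Pk q B A P (k + 1)) * H) =
        ((X * q : ℚ[X]) : PowerSeries ℚ) • (pm (Pk q B A P k) * H).map dv +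
          (q : PowerSeries ℚ) • ((pm (Pk q B A P k) * H) * cq A - cq A * (pm (Pk q B A P k) * H)) -
          (k : ℚ) • ((derivative (X * q) : ℚ[X]) : PowerSeries ℚ) • (pm (Pk q B A P k) * H) := by
      rw [← Matrix.smul_mul, ← pm_qsmul, Pk_succ, step, pm_sub, pm_sub, pm_add, pm_mul, pm_smul,
        pm_smul, pm_mul, pm_qsmul, pm_smul, pm_derivative, hcm, dvM_mul]
      have e2 : ((X * q : ℚ[X]) : PowerSeries ℚ) • (pm (Pk q B A P k) * H.map dv) =
          pm (Pk q B A P k) * (pm B * H) - (q : PowerSeries ℚ) • (pm (Pk q B A P k) * (H * cq A)) := by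
        rw [← Matrix.mul_smul, hode, Matrix.mul_sub, Matrix.mul_smul]
      rw [smul_add, e2]
      simp only [Matrix.sub_mul, Matrix.add_mul, Matrix.smul_mul, Matrix.mul_assoc, smul_sub]
      abel
    have e3 : ∀ Y Z : Matrix d d (PowerSeries ℚ), ((k : ℚ) + 1) • Y = ((k : ℚ) + 1) • Z → Y = Z := by
      intro Y Z h
      have h2 := congrArg (fun x => ((k : ℚ) + 1)⁻¹ • x) h
      simpa only [smul_smul, inv_mul_cancel₀ hk, one_smul] using h2
    apply e3
    rw [e1, ih, ← antidiag_tel (fun a b => ((q : PowerSeries ℚ) ^ a *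
      ((X * q : ℚ[X]) : PowerSeries ℚ) ^ b) • hsM b (GqA A (pm P * H) a)), dvM_sum, Finset.smul_sum,
      Finset.sum_mul, Finset.mul_sum, ← Finset.sum_sub_distrib, Finset.smul_sum, Finset.smul_sum,
      Finset.smul_sum, ← Finset.sum_add_distrib, ← Finset.sum_sub_distrib]
    apply Finset.sum_congr rfl
    rintro ⟨a, b⟩ hab
    rw [mem_antidiagonal] at hab
    simp only at hab ⊢
    obtain ⟨Q, hQ⟩ : ∃ Q : PowerSeries ℚ, Q = (q : PowerSeries ℚ) := ⟨_, rfl⟩
    obtain ⟨R, hR⟩ : ∃ R : PowerSeries ℚ, R = ((X * q : ℚ[X]) : PowerSeries ℚ) := ⟨_, rfl⟩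
    have hRQ : R = PowerSeries.X * Q := by rw [hR, hQ, Polynomial.coe_mul, Polynomial.coe_X]
    have hdR : ((derivative (X * q) : ℚ[X]) : PowerSeries ℚ) = dv R := by
      rw [hR]
      ext n
      rw [PowerSeries.coeff_derivative, Polynomial.coeff_coe, Polynomial.coeff_coe,
        Polynomial.coeff_derivative]
    rw [← hQ, ← hR, hdR]
    have hdR2 : dv R = Q + PowerSeries.X * dv Q := by
      rw [hRQ, dv, Derivation.leibniz, PowerSeries.derivative_X, smul_eq_mul, smul_eq_mul, dv]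
      ring
    have hp1 : R * dv (R ^ b) = (b : PowerSeries ℚ) * dv R * R ^ b := by
      rcases b with _ | b
      · simp [dv]
      · rw [dv, Derivation.leibniz_pow, Nat.add_sub_cancel, pow_succ, nsmul_eq_mul, smul_eq_mul]
        ring
    have hp2 : R * dv (Q ^ a) = (a : PowerSeries ℚ) * (dv R - Q) * Q ^ a := by
      rw [hdR2, hRQ]
      rcases a with _ | a
      · simp [dv]
      · rw [dv, Derivation.leibniz_pow, Nat.add_sub_cancel, pow_succ, nsmul_eq_mul, smul_eq_mul]
        ring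
    have hp3 : R * dv (Q ^ a * R ^ b) = ((a : PowerSeries ℚ) * (dv R - Q) + (b : PowerSeries ℚ) * dv R) *
        (Q ^ a * R ^ b) := by
      have : dv (Q ^ a * R ^ b) = dv (Q ^ a) * R ^ b + Q ^ a * dv (R ^ b) := by
        simp only [dv, Derivation.leibniz, smul_eq_mul]
        ring
      rw [this, mul_add, ← mul_assoc, hp2, mul_left_comm, hp1]
      ring
    have hG := GqA_succ A (pm P * H) a
    obtain ⟨G, hGd⟩ : ∃ G, G = GqA A (pm P * H) a := ⟨_, rfl⟩
    obtain ⟨G', hGd'⟩ : ∃ G, G = GqA A (pm P * H) (a + 1) := ⟨_, rfl⟩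
    rw [← hGd, ← hGd'] at hG ⊢
    have hG2 : hsM b G * cq A - cq A * hsM b G =
        ((a : ℚ) + 1) • hsM b G' + (a : ℚ) • hsM b G := by
      rw [← hsM_smul, ← hsM_smul, ← hsM_add, ← hG, sub_eq_add_neg, sub_eq_add_neg, hsM_add,
        hsM_mul_cq, ← hsM_cq_mul]
      congr 1
      rw [← neg_one_smul ℚ (cq A * G), hsM_smul, neg_one_smul]
    rw [dvM_smul, dvM_hsM, smul_add, smul_smul, hp3, Matrix.smul_mul, Matrix.mul_smul, ← smul_sub, hG2]
    have hk2 : (k : ℚ) = (a : ℚ) + b := by rw [← hab]; push_cast; ring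
    rw [hk2]
    have hc : ∀ (n : ℕ) (Y : Matrix d d (PowerSeries ℚ)), ((n : ℚ)) • Y = (n : PowerSeries ℚ) • Y := by
      intro n Y
      rw [Nat.cast_smul_eq_nsmul, Nat.cast_smul_eq_nsmul]
    simp only [add_smul, one_smul, hc, pow_succ]
    exact alg_final _ _ _ _ _ _ _ _ _ _

end Pool.Agent.MT100D.H78
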