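import Pool.Agent.Helper78_MTD.Gal1

/-! MT100-D, module GAL, part 2: binomials of commuting operators, integrality and size. -/

set_option autoImplicit false
set_option linter.unusedSectionVars false

namespace Pool.Agent.MT100D.H78

open Matrix Polynomial Pool.Agent.MT100 Pool.Agent.Helper39_MT
open Finset.HasAntidiagonal (antidiagonal mem_antidiagonal)

section bi
variable {V : Type*} [AddCommGroup V] [Module ℚ V] (A B : Module.End ℚ V)

theorem Bi_rec (j : ℕ) : (A - (j : ℚ) • 1) * Bi A j = ((j : ℚ) + 1) • Bi A (j + 1) := by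
  have h : ((j : ℚ) + 1) ≠ 0 := by positivity
  rw [Bi, smul_smul, mul_inv_cancel₀ h, one_smul]

theorem Bi_commute (h : A * B = B * A) (j : ℕ) : Bi A j * B = B * Bi A j := by
  induction j with
  | zero => simp [Bi]
  | succ j ih =>
    rw [Bi, smul_mul_assoc, mul_smul_comm, mul_assoc, ih, ← mul_assoc, ← mul_assoc, sub_mul, mul_sub,
      h, smul_mul_assoc, mul_smul_comm, one_mul, mul_one]

/-- Vandermonde -/
theorem Bi_add (h : A * B = B * A) (k : ℕ) :
    Bi (A + B) k = ∑ x ∈ antidiagonal k, Bi A x.1 * Bi B x.2 := by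
  induction k with
  | zero => simp [Bi]
  | succ k ih =>
    have hk : ((k : ℚ) + 1) ≠ 0 := by positivity
    have key : ((k : ℚ) + 1) • Bi (A + B) (k + 1) =
        ((k : ℚ) + 1) • ∑ x ∈ antidiagonal (k + 1), Bi A x.1 * Bi B x.2 := by
      rw [← Bi_rec, ih, ← antidiag_tel (fun a b => Bi A a * Bi B b), Finset.mul_sum]
      apply Finset.sum_congr rfl
      rintro ⟨a, b⟩ hab
      rw [mem_antidiagonal] at hab
      simp only at hab ⊢
      have hk2 : (k : ℚ) = (a : ℚ) + b := by rw [← hab]; push_cast; ring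
      rw [← smul_mul_assoc, ← mul_smul_comm, ← Bi_rec, ← Bi_rec, hk2]
      have e : (A + B - ((a : ℚ) + b) • (1 : Module.End ℚ V)) * (Bi A a * Bi B b) =
          (A - (a : ℚ) • 1) * Bi A a * Bi B b + (B * Bi A a - (b : ℚ) • Bi A a) * Bi B b := by
        rw [add_smul]
        simp only [sub_mul, add_mul, smul_mul_assoc, one_mul, mul_assoc]
        abel
      rw [e, ← Bi_commute A B h, ← mul_assoc (Bi A a), mul_sub, mul_smul_comm, mul_one]
    have h2 := congrArg (fun x => ((k : ℚ) + 1)⁻¹ • x) key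
    simpa only [smul_smul, inv_mul_cancel₀ hk, one_smul] using h2

end bi

variable {d : Type*} [Fintype d] [DecidableEq d]

/-- `X ↦ X A - A X` -/
noncomputable def adQ (A : Matrix d d ℚ) : Module.End ℚ (Matrix d d (PowerSeries ℚ)) :=
  LinearMap.mulRight ℚ (cq A) - LinearMap.mulLeft ℚ (cq A)

theorem adQ_apply (A : Matrix d d ℚ) (X : Matrix d d (PowerSeries ℚ)) :
    adQ A X = X * cq A - cq A * X := rfl

theorem cq_add (A B : Matrix d d ℚ) : cq (A + B) = cq A + cq B := by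
  ext i j : 1
  simp [cq]

theorem cq_mul (A B : Matrix d d ℚ) : cq (A * B) = cq A * cq B := by
  unfold cq
  exact Matrix.map_mul (f := PowerSeries.C (R := ℚ))

theorem cq_int (N : Matrix d d ℤ) : cq (N.map (fun x => (x : ℚ))) = cm N := by
  ext i j : 1
  show PowerSeries.C ((N i j : ℤ) : ℚ) = ((N i j : ℤ) : PowerSeries ℚ)
  rw [intCast_eq]

theorem adQ_int (N : Matrix d d ℤ) : adQ (N.map (fun x => (x : ℚ))) = adN N := by
  unfold adQ adN
  rw [cq_int]

theorem adQ_add (A B : Matrix d d ℚ) : adQ (A + B) = adQ A + adQ B := by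
  ext1 X
  rw [LinearMap.add_apply, adQ_apply, adQ_apply, adQ_apply, cq_add, mul_add, add_mul]
  abel

theorem adQ_comm (A B : Matrix d d ℚ) (h : A * B = B * A) : adQ A * adQ B = adQ B * adQ A := by
  ext1 X
  have h1 : cq A * cq B = cq B * cq A := by rw [← cq_mul, h, cq_mul]
  rw [Module.End.mul_apply, Module.End.mul_apply, adQ_apply, adQ_apply, adQ_apply, adQ_apply]
  have e1 : X * (cq B * cq A) = X * (cq A * cq B) := by rw [h1]
  have e2 : cq A * (cq B * X) = cq B * (cq A * X) := by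
    rw [← Matrix.mul_assoc, h1, Matrix.mul_assoc]
  simp only [sub_mul, mul_sub, Matrix.mul_assoc]
  rw [e1, e2]
  abel

theorem GqA_eq (A : Matrix d d ℚ) (F : Matrix d d (PowerSeries ℚ)) (j : ℕ) :
    GqA A F j = Bi (adQ A) j F := by
  induction j with
  | zero => rfl
  | succ j ih =>
    rw [GqA, Bi, LinearMap.smul_apply, Module.End.mul_apply, LinearMap.sub_apply,
      LinearMap.smul_apply, Module.End.one_apply, ← ih, adQ_apply]

/-- the binomials of `ad Q` have denominators of geometric growth -/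
def BinG (Q : Matrix d d ℚ) : Prop :=
  ∃ C : ℕ, 0 < C ∧ ∀ T : ℕ, ∃ D : ℕ, 0 < D ∧ D ≤ C ^ (T + 1) ∧
    ∀ b ≤ T, ∀ (n : ℕ) (E : ℚ) (F : Matrix d d (PowerSeries ℚ)), mI n E F →
      mI n ((D : ℚ) * E) (Bi (adQ Q) b F)

theorem adQ_diag (δ : d → ℚ) (X : Matrix d d (PowerSeries ℚ)) (i j : d) :
    adQ (Matrix.diagonal δ) X i j = (δ j - δ i) • X i j := by
  have h : cq (Matrix.diagonal δ) = Matrix.diagonal (fun i => PowerSeries.C (δ i)) := by
    unfold cq
    rw [Matrix.diagonal_map (map_zero _)]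
  rw [adQ_apply, Matrix.sub_apply, h, Matrix.mul_diagonal, Matrix.diagonal_mul, sub_smul,
    PowerSeries.smul_eq_C_mul, PowerSeries.smul_eq_C_mul]
  ring

theorem Bi_diag (δ : d → ℚ) (X : Matrix d d (PowerSeries ℚ)) (b : ℕ) (i j : d) :
    Bi (adQ (Matrix.diagonal δ)) b X i j = (Ring.choose (δ j - δ i) b) • X i j := by
  induction b with
  | zero => simp [Bi]
  | succ b ih =>
    have hb : ((b : ℚ) + 1) ≠ 0 := by positivity
    rw [Bi, LinearMap.smul_apply, Module.End.mul_apply, LinearMap.sub_apply, LinearMap.smul_apply,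
      Module.End.one_apply, Matrix.smul_apply, Matrix.sub_apply, adQ_diag, Matrix.smul_apply, ih,
      smul_smul, smul_smul, ← sub_smul, smul_smul, ← sub_mul,
      ← Pool.Agent.MT100.H34.choose_succ_mul, ← mul_assoc, inv_mul_cancel₀ hb, one_mul]

theorem binG_diag (δ : d → ℚ) : BinG (Matrix.diagonal δ) := by
  obtain ⟨C, hC0, hC⟩ := gm (X := Matrix.of fun i j => Pool.Agent.MT100.H34.bn 1 (δ j - δ i))
    (fun i j => Pool.Agent.MT100.H34.gtype_bn 1 _)
  refine ⟨C, hC0, fun T => ?_⟩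
  obtain ⟨_, D, hD0, hD1, hD2⟩ := hC T
  refine ⟨D, hD0, hD1, fun b hb n E F hF i j => ?_⟩
  rw [Bi_diag]
  intro k hk
  obtain ⟨z, hz⟩ := hD2 i j b hb
  obtain ⟨y, hy⟩ := hF i j k hk
  rw [Matrix.of_apply, Pool.Agent.MT100.H34.coeff_bn] at hz
  rw [PowerSeries.coeff_smul, smul_eq_mul]
  refine ⟨(-1) ^ b * z * y, ?_⟩
  push_cast at hz ⊢
  rw [← hz, ← hy]
  have h1 : ((-1 : ℚ) ^ b) * (-1) ^ b = 1 := by rw [← mul_pow]; norm_num
  linear_combination (-(D : ℚ) * E * Ring.choose (δ j - δ i) b * PowerSeries.coeff k (F i j)) * h1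

theorem binG_zero : BinG (0 : Matrix d d ℚ) := by
  have := binG_diag (fun _ : d => (0 : ℚ))
  rwa [show Matrix.diagonal (fun _ : d => (0 : ℚ)) = 0 from Matrix.diagonal_zero] at this

/-- integrality of the `GqA` -/
theorem mI_GqA {n : ℕ} {D : ℚ} (N : Matrix d d ℤ) (Q : Matrix d d ℚ)
    (hNQ : N.map (fun x => (x : ℚ)) * Q = Q * N.map (fun x => (x : ℚ)))
    (ν : ℕ) (hν : adN N ^ ν = 0) (L T : ℕ) (hL : L ≠ 0)
    (hdvd : ∀ j, 1 ≤ j → j ≤ T → j ∣ L) {E : ℚ}
    (hE : ∀ b ≤ T, ∀ (n : ℕ) (D : ℚ) (F : Matrix d d (PowerSeries ℚ)), mI n D F →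
      mI n (E * D) (Bi (adQ Q) b F)) {F : Matrix d d (PowerSeries ℚ)} (hF : mI n D F)
    {j : ℕ} (hj : j ≤ T) : mI n (D * E * (L : ℚ) ^ ν) (GqA (N.map (fun x => (x : ℚ)) + Q) F j) := by
  rw [GqA_eq, adQ_add, Bi_add _ _ (adQ_comm _ _ hNQ), LinearMap.sum_apply]
  apply mI_sum
  rintro ⟨a, b⟩ hab
  rw [mem_antidiagonal] at hab
  simp only at hab ⊢
  rw [Module.End.mul_apply, adQ_int, ← Gq_eq]
  have h1 := hE b (by omega) n D F hF
  rw [mul_comm D E]
  exact mI_Gq N ν hν L T hL hdvd h1 (by omega)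

theorem msz_cq (n : ℕ) (A : Matrix d d ℚ) : msz n (cq A) = ∑ i, ∑ j, |A i j| := by
  unfold msz
  apply Finset.sum_congr rfl
  intro i _
  apply Finset.sum_congr rfl
  intro j _
  show sz n (PowerSeries.C (A i j)) = _
  have : (PowerSeries.C (A i j) : PowerSeries ℚ) = (A i j) • 1 := by
    rw [PowerSeries.smul_eq_C_mul, mul_one]
  rw [this, sz_smul, sz_one, mul_one]

/-- size of the `GqA` -/
theorem msz_GqA (n : ℕ) (A : Matrix d d ℚ) (F : Matrix d d (PowerSeries ℚ)) (j : ℕ) :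
    msz n (GqA A F j) ≤ (2 * (∑ i, ∑ j, |A i j|) + 1) ^ j * msz n F := by
  set ν := ∑ i, ∑ j, |A i j| with hν
  have hν0 : 0 ≤ ν := Finset.sum_nonneg fun _ _ => Finset.sum_nonneg fun _ _ => abs_nonneg _
  induction j with
  | zero => simp [GqA]
  | succ j ih =>
    rw [GqA, msz_qsmul]
    have h1 : msz n (GqA A F j * cq A - cq A * GqA A F j - (j : ℚ) • GqA A F j) ≤
        (2 * ν + j) * msz n (GqA A F j) := by
      refine (msz_sub _ _ _).trans ?_
      have a1 := msz_sub n (GqA A F j * cq A) (cq A * GqA A F j)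
      have a2 := msz_mul n (GqA A F j) (cq A)
      have a3 := msz_mul n (cq A) (GqA A F j)
      rw [msz_cq, ← hν] at a2 a3
      rw [msz_qsmul, abs_of_nonneg (by positivity : (0 : ℚ) ≤ (j : ℚ))]
      nlinarith
    have h2 : |((j : ℚ) + 1)⁻¹| = ((j : ℚ) + 1)⁻¹ := abs_of_nonneg (by positivity)
    rw [h2]
    have h3 : ((j : ℚ) + 1)⁻¹ * (2 * ν + j) ≤ 2 * ν + 1 := by
      rw [inv_mul_le_iff₀ (by positivity)]
      have : 0 ≤ (j : ℚ) * (2 * ν) := by positivity
      nlinarith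
    generalize msz n (GqA A F j * cq A - cq A * GqA A F j - (j : ℚ) • GqA A F j) = w at h1 ⊢
    have h4 := msz_nonneg n (GqA A F j)
    generalize msz n (GqA A F j) = g at h1 ih h4
    generalize msz n F = e at ih ⊢
    have h5 : ((j : ℚ) + 1)⁻¹ * w ≤ ((j : ℚ) + 1)⁻¹ * ((2 * ν + j) * g) :=
      mul_le_mul_of_nonneg_left h1 (by positivity)
    have h6 : (((j : ℚ) + 1)⁻¹ * (2 * ν + j)) * g ≤ (2 * ν + 1) * g :=
      mul_le_mul_of_nonneg_right h3 h4
    have h7 : (2 * ν + 1) * g ≤ (2 * ν + 1) * ((2 * ν + 1) ^ j * e) :=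
      mul_le_mul_of_nonneg_left ih (by linarith)
    calc ((j : ℚ) + 1)⁻¹ * w ≤ ((j : ℚ) + 1)⁻¹ * ((2 * ν + j) * g) := h5
      _ = (((j : ℚ) + 1)⁻¹ * (2 * ν + j)) * g := by rw [mul_assoc]
      _ ≤ (2 * ν + 1) * g := h6
      _ ≤ (2 * ν + 1) * ((2 * ν + 1) ^ j * e) := h7
      _ = (2 * ν + 1) ^ (j + 1) * e := by rw [pow_succ']; ring

end Pool.Agent.MT100D.H78
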