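import Pool.Agent.Helper78_MTD.Core

/-! Zero estimates for systems with rational exponents, part 3: ZSA and ZSB for plain matrices. -/

set_option autoImplicit false
set_option linter.unusedSectionVars false

namespace Pool.Agent.MT100D.H78

open Matrix Polynomial Pool.Agent.MT100 Pool.Agent.MT100G Pool.Agent.MT100G.H58
open Pool.Agent.Helper58_MT

variable {d : Type} [Fintype d] [DecidableEq d]

/-- ZSA in the form for plain matrices: `A u = 0`; a second fundamental matrix `H0` with exponents `A0`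
without resonances, `H0 K0 = z ^ m0`, `H0 u = z ^ s (H u)` -/
theorem zsa1 (q' : ℚ[X]) (hq0 : q' ≠ 0) (B' : Matrix d d ℚ[X]) (A : Matrix d d ℚ)
    (H : Matrix d d (PowerSeries ℚ))
    (hode : co (X * q') • H.map (PowerSeries.derivative ℚ) = B'.map co * H - co q' • (H * pc A))
    (A0 : Matrix d d ℚ) (hA0 : NonRes A0) (H0 K0 : Matrix d d (PowerSeries ℚ)) (m0 : ℕ)
    (hHK : H0 * K0 = (PowerSeries.X ^ m0 : PowerSeries ℚ) • (1 : Matrix d d (PowerSeries ℚ)))
    (hode0 : co (X * q') • H0.map (PowerSeries.derivative ℚ) =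
      B'.map co * H0 - co q' • (H0 * pc A0))
    (u : d → ℚ) (hu : A *ᵥ u = 0) (s : ℕ) (hlk : ∀ i, hv H0 u i = PowerSeries.X ^ s * hv H u i)
    (m' e : ℕ) (ε : d ≃ Fin m' ⊕ Fin e) (R : Fin e → d → ℚ[X])
    (hR : RelB (hv H u) R) :
    ∃ c0 : ℕ, ∀ (M : ℕ) (P : d → ℚ[X]), (∀ i, (P i).natDegree ≤ M) →
      ∑ i, ((P i : ℚ[X]) : PowerSeries ℚ) * hv H u i ≠ 0 →
      (∀ i ≤ (m' - 1) * M + c0,
        PowerSeries.coeff i (∑ i, ((P i : ℚ[X]) : PowerSeries ℚ) * hv H u i) = 0) →
      Dt q' B' P ε R ≠ 0 := by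
  classical
  obtain ⟨c, hc, hB⟩ : ∃ c : ℕ, (X * q').natDegree ≤ c ∧ ∀ i j, (B' i j).natDegree ≤ c := by
    refine ⟨(X * q').natDegree + ∑ i, ∑ j, (B' i j).natDegree, by omega, ?_⟩
    intro i j
    have h1 : (B' i j).natDegree ≤ ∑ j, (B' i j).natDegree :=
      Finset.single_le_sum (f := fun j => (B' i j).natDegree) (fun _ _ => Nat.zero_le _)
        (Finset.mem_univ j)
    have h2 : ∑ j, (B' i j).natDegree ≤ ∑ i, ∑ j, (B' i j).natDegree :=
      Finset.single_le_sum (f := fun i => ∑ j, (B' i j).natDegree)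
        (fun _ _ => Nat.zero_le _) (Finset.mem_univ i)
    omega
  obtain ⟨c3, hc3⟩ := degR R
  refine ⟨Fintype.card d * (c * Fintype.card d) + e * c3 + m0 * Fintype.card d, ?_⟩
  intro M P hM hne hord
  by_contra hDt
  -- a dependence
  obtain ⟨l, hl1, hl2, hl3⟩ : ∃ l, l < m' ∧ Pv q' B' P l ∈ sat (SS q' B' P R l) ∧
      ∀ k < l, Pv q' B' P k ∉ sat (SS q' B' P R k) := by
    have hex : ∃ l, l < m' ∧ Pv q' B' P l ∈ sat (SS q' B' P R l) := by
      by_contra hcon
      push Not at hcon
      have h1 := li_family q' B' P R hR.indep m' hcon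
      have h2 := det_ne_zero_of_li _ (h1.comp ε ε.injective)
      rw [Dt_eq] at hDt
      exact h2 hDt
    refine ⟨Nat.find hex, (Nat.find_spec hex).1, (Nat.find_spec hex).2, fun k hk => ?_⟩
    intro h
    exact Nat.find_min hex hk ⟨hk.trans (Nat.find_spec hex).1, h⟩
  have hl0 : 0 < l := by
    rcases Nat.eq_zero_or_pos l with h | h
    · exfalso
      subst h
      obtain ⟨f, hf, hfP⟩ := hl2
      have h1 : SS q' B' P R 0 = Submodule.span ℚ[X] (Set.range R) := by
        unfold SS
        simp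
      rw [h1] at hfP
      have h2 : ∀ p ∈ Submodule.span ℚ[X] (Set.range R), pr H u p = 0 := by
        intro p hp
        induction hp using Submodule.span_induction with
        | mem p hp => obtain ⟨j, rfl⟩ := hp; exact hR.rel j
        | zero => exact pr_zero H u
        | add a b _ _ ha hb => rw [pr_add, ha, hb, add_zero]
        | smul c a _ ha => rw [pr_smul, ha, mul_zero]
      have h3 := h2 _ hfP
      rw [pr_smul] at h3
      exact hne ((mul_eq_zero.1 h3).resolve_left fun h => hf (co_eq_zero.1 h))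
    · exact h
  have hli := li_family q' B' P R hR.indep l hl3
  have hlD : l + e ≤ Fintype.card d := by
    have h1 := hli.cardinalMk_le_finrank
    rw [Module.finrank_fintype_fun_eq_card, Cardinal.mk_fintype, Fintype.card_sum,
      Fintype.card_fin, Fintype.card_fin] at h1
    exact_mod_cast h1
  have hstab : ∀ m, ∀ p ∈ sat (Submodule.span ℚ[X]
      (Set.range (Sum.elim (fun k : Fin l => Pv q' B' P k) R))),
      nb q' B' m p ∈ sat (Submodule.span ℚ[X]
      (Set.range (Sum.elim (fun k : Fin l => Pv q' B' P k) R))) := by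
    rw [span_family]
    intro m p hp
    refine nb_sat q' B' P R l hl2 (fun j => ?_) m p hp
    obtain ⟨f, hf, h⟩ := nb_R q' B' _ H hode u hu R hR j
    refine ⟨f, hf, ?_⟩
    exact (Submodule.span_mono Set.subset_union_left) h
  set T := (m' - 1) * M + (Fintype.card d * (c * Fintype.card d) + e * c3 +
    m0 * Fintype.card d) + 1 with hT
  have hXT : (PowerSeries.X : PowerSeries ℚ) ^ T ∣ pr H u P := by
    rw [PowerSeries.X_pow_dvd_iff]
    intro i hi
    exact hord i (by omega)
  have hlk' : ∀ p : d → ℚ[X], ∑ i, co (p i) * hv H0 u i =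
      PowerSeries.X ^ s * ∑ i, co (p i) * hv H u i := by
    intro p
    rw [Finset.mul_sum]
    refine Finset.sum_congr rfl fun i _ => ?_
    rw [hlk]
    ring
  have hfin := coreD q' hq0 B' A0 hA0 H0 K0 m0 hHK hode0 u
    (Fin l ⊕ Fin e) (Sum.elim (fun k : Fin l => Pv q' B' P k) R) hli hstab T
    (by
      intro x
      rw [hlk']
      refine Dvd.dvd.mul_left ?_ _
      revert x
      rintro (k | j)
      · exact pr_Pv q' B' _ H hode u hu P T hXT k
      · have : pr H u (R j) = 0 := hR.rel j
        show _ ∣ pr H u (R j)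
        rw [this]
        exact dvd_zero _)
    (Sum.inl ⟨0, hl0⟩) (by
      rw [hlk']
      exact mul_ne_zero (pow_ne_zero _ PowerSeries.X_ne_zero) hne)
    (Sum.elim (fun k => M + c * k) (fun _ => c3))
    (by
      rintro (k | j) i
      · exact Pv_natDegree q' B' P c M hc hB hM k i
      · exact hc3 j i)
  rw [Fintype.sum_sum_type] at hfin
  simp only [Sum.elim_inl, Sum.elim_inr, Finset.sum_const, Finset.card_univ, Fintype.card_fin,
    smul_eq_mul] at hfin
  have h1 : ∑ k : Fin l, (M + c * (k : ℕ)) ≤ l * (M + c * Fintype.card d) := by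
    refine (Finset.sum_le_card_nsmul _ _ (M + c * Fintype.card d) fun k _ => ?_).trans (by
      rw [Finset.card_univ, Fintype.card_fin, smul_eq_mul])
    have : (k : ℕ) ≤ Fintype.card d := by have := k.2; omega
    have := Nat.mul_le_mul_left c this
    omega
  have h2 : l * (M + c * Fintype.card d)
      ≤ (m' - 1) * M + Fintype.card d * (c * Fintype.card d) := by
    rw [Nat.mul_add]
    refine Nat.add_le_add (Nat.mul_le_mul_right _ (by omega)) (Nat.mul_le_mul_right _ (by omega))
  omega


/-- ZSA in the form for plain matrices: `A` has no resonances, `H K = z ^ m0`, `A u = 0` -/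
theorem zsa0 (q' : ℚ[X]) (hq0 : q' ≠ 0) (B' : Matrix d d ℚ[X]) (A : Matrix d d ℚ)
    (hA : NonRes A) (H K : Matrix d d (PowerSeries ℚ)) (m0 : ℕ)
    (hHK : H * K = (PowerSeries.X ^ m0 : PowerSeries ℚ) • (1 : Matrix d d (PowerSeries ℚ)))
    (hode : co (X * q') • H.map (PowerSeries.derivative ℚ) = B'.map co * H - co q' • (H * pc A))
    (u : d → ℚ) (hu : A *ᵥ u = 0) (m' e : ℕ) (ε : d ≃ Fin m' ⊕ Fin e) (R : Fin e → d → ℚ[X])
    (hR : RelB (hv H u) R) :
    ∃ c0 : ℕ, ∀ (M : ℕ) (P : d → ℚ[X]), (∀ i, (P i).natDegree ≤ M) →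
      ∑ i, ((P i : ℚ[X]) : PowerSeries ℚ) * hv H u i ≠ 0 →
      (∀ i ≤ (m' - 1) * M + c0,
        PowerSeries.coeff i (∑ i, ((P i : ℚ[X]) : PowerSeries ℚ) * hv H u i) = 0) →
      Dt q' B' P ε R ≠ 0 :=
  zsa1 q' hq0 B' A H hode A hA H K m0 hHK hode u hu 0 (fun i => by rw [pow_zero, one_mul])
    m' e ε R hR

/-- ZSB in the form for plain matrices: `H 0 = 1`, `A u = 0` -/
theorem zsb0 (q' : ℚ[X]) (hq0 : q' ≠ 0) (B' : Matrix d d ℚ[X]) (A : Matrix d d ℚ)
    (H : Matrix d d (PowerSeries ℚ))
    (hone : ∀ i j, PowerSeries.constantCoeff (H i j) = if i = j then 1 else 0)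
    (hode : co (X * q') • H.map (PowerSeries.derivative ℚ) = B'.map co * H - co q' • (H * pc A))
    (u : d → ℚ) (hu : A *ᵥ u = 0) (m' e : ℕ) (ε : d ≃ Fin m' ⊕ Fin e) (R : Fin e → d → ℚ[X])
    (hR : RelB (hv H u) R) :
    ∃ c2 n0 : ℕ, ∀ (M T τ : ℕ) (P : d → ℚ[X]) (n : ℕ), n0 ≤ n → (∀ i, (P i).natDegree ≤ M) →
      (∀ i < T, PowerSeries.coeff i (∑ i, ((P i : ℚ[X]) : PowerSeries ℚ) * hv H u i) = 0) →
      Dt q' B' P ε R ≠ 0 → m' * M + c2 ≤ T + τ →
      LinearIndependent ℚ (fun l i => (R l i).eval ((n : ℚ)⁻¹)) ∧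
      ∀ y : d → ℚ, (∀ k < m' + τ,
        ∑ i, (Pv q' B' P k i).eval ((n : ℚ)⁻¹) * y i = 0) →
        (∀ l, ∑ i, (R l i).eval ((n : ℚ)⁻¹) * y i = 0) → y = 0 := by
  classical
  obtain ⟨c, hc, hB⟩ : ∃ c : ℕ, (X * q').natDegree ≤ c ∧ ∀ i j, (B' i j).natDegree ≤ c := by
    refine ⟨(X * q').natDegree + ∑ i, ∑ j, (B' i j).natDegree, by omega, ?_⟩
    intro i j
    have h1 : (B' i j).natDegree ≤ ∑ j, (B' i j).natDegree :=
      Finset.single_le_sum (f := fun j => (B' i j).natDegree) (fun _ _ => Nat.zero_le _)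
        (Finset.mem_univ j)
    have h2 : ∑ j, (B' i j).natDegree ≤ ∑ i, ∑ j, (B' i j).natDegree :=
      Finset.single_le_sum (f := fun i => ∑ j, (B' i j).natDegree)
        (fun _ _ => Nat.zero_le _) (Finset.mem_univ i)
    omega
  obtain ⟨c3, hc3⟩ := degR R
  have hcard : Fintype.card d = m' + e := by
    rw [Fintype.card_congr ε, Fintype.card_sum, Fintype.card_fin, Fintype.card_fin]
  -- the factor `F`
  obtain ⟨F, hF0, hF⟩ : ∃ F : ℚ[X], F ≠ 0 ∧
      ∀ j, F • nb q' B' 0 (R j) ∈ Submodule.span ℚ[X] (Set.range R) := by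
    have h1 := fun j => nb_R q' B' _ H hode u hu R hR j
    choose f hf0 hf using h1
    refine ⟨∏ j, f j, Finset.prod_ne_zero_iff.2 fun j _ => hf0 j, fun j => ?_⟩
    rw [← Finset.mul_prod_erase _ _ (Finset.mem_univ j), mul_comm, mul_smul]
    exact Submodule.smul_mem _ _ (hf j)
  -- completion of `R`
  obtain ⟨κ, hκ, e1, jj, hdetR⟩ := completion (Fintype.card d - e) (Fin e) R
    (by rw [Fintype.card_fin]; omega) hR.indep
  set AR : Matrix d d ℚ[X] :=
    Matrix.of fun i => Sum.elim R (fun k => Pi.single (jj k) (1 : ℚ[X])) (e1 i) with hAR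
  obtain ⟨n0, hn01, hn0⟩ := eval_inv_ne (q' * (F * AR.det)) (mul_ne_zero hq0 (mul_ne_zero hF0 hdetR))
  refine ⟨m' * (c * m') + e * c3, n0, ?_⟩
  intro M T τ P n hn hM hT hDt hbig
  set ξ : ℚ := (n : ℚ)⁻¹ with hξdef
  have hξ : ξ ≠ 0 := by
    rw [hξdef]
    have : (n : ℚ) ≠ 0 := by
      have : n ≠ 0 := by omega
      exact_mod_cast this
    exact inv_ne_zero this
  have hev := hn0 n hn
  rw [eval_mul, eval_mul] at hev
  have hqξ : q'.eval ξ ≠ 0 := left_ne_zero_of_mul hev
  have hFξ : F.eval ξ ≠ 0 := left_ne_zero_of_mul (right_ne_zero_of_mul hev)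
  have hRξ : AR.det.eval ξ ≠ 0 := right_ne_zero_of_mul (right_ne_zero_of_mul hev)
  -- independence of the relations at `ξ`
  have hdetξ : (AR.map (eval ξ)).det ≠ 0 := by
    have h1 := RingHom.map_det (evalRingHom ξ) AR
    rw [coe_evalRingHom] at h1
    have h2 : (evalRingHom ξ).mapMatrix AR = AR.map (eval ξ) := rfl
    rw [h2] at h1
    rw [← h1]
    exact hRξ
  have hliR : LinearIndependent ℚ (fun l i => (R l i).eval ξ) := by
    have h1 := Matrix.linearIndependent_rows_of_det_ne_zero hdetξ
    have h2 := h1.comp (fun l : Fin e => e1.symm (Sum.inl l)) (by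
      intro a b h
      simpa using h)
    have h3 : ((fun i => (AR.map (eval ξ)).row i) ∘ fun l : Fin e => e1.symm (Sum.inl l))
        = fun l i => (R l i).eval ξ := by
      funext l i
      simp only [Function.comp_apply, Matrix.row_apply, Matrix.map_apply, hAR, Matrix.of_apply,
        Equiv.apply_symm_apply, Sum.elim_inl]
    rw [← h3]
    exact h2
  refine ⟨hliR, ?_⟩
  intro y hy hyR
  -- rows of full rank
  have hfin : ∀ (g : ℚ[X]) (m : ℕ), g.eval ξ ≠ 0 → m ≤ m' + τ →
      (∀ E : d → ℚ[X], g • E ∈ SS q' B' P R m) → y = 0 := by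
    intro g m hg hm hE
    have hzero : ∀ p ∈ SS q' B' P R m, ∑ i, (p i).eval ξ * y i = 0 := by
      intro p hp
      unfold SS at hp
      induction hp using Submodule.span_induction with
      | mem p hp =>
          rcases hp with ⟨j, rfl⟩ | ⟨k, hk, rfl⟩
          · exact hyR j
          · have hk' : k < m := hk
            exact hy k (by omega)
      | zero => simp
      | add a b _ _ ha hb =>
          simp only [Pi.add_apply, eval_add, add_mul, Finset.sum_add_distrib, ha, hb, add_zero]
      | smul c a _ ha =>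
          simp only [Pi.smul_apply, smul_eq_mul, eval_mul, mul_assoc, ← Finset.mul_sum, ha,
            mul_zero]
    funext i
    have h1 := hzero _ (hE (Pi.single i 1))
    rw [Finset.sum_eq_single i] at h1
    · simp only [Pi.smul_apply, Pi.single_eq_same, smul_eq_mul, mul_one] at h1
      exact (mul_eq_zero.1 h1).resolve_left hg
    · intro b _ hb
      simp [hb]
    · intro h; exact absurd (Finset.mem_univ _) h
  by_cases hu0 : u = 0
  · -- everything is a relation
    have hm0 : m' = 0 := by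
      have h1 := card_le_of_sat (d := d) R (by
        intro j
        refine hR.max _ ?_
        have : ∀ i, hv H u i = 0 := by
          intro i
          unfold hv
          refine Finset.sum_eq_zero fun x _ => ?_
          rw [hu0]
          simp
        simp [this])
      rw [Fintype.card_fin] at h1
      omega
    have hfull : ∀ E : d → ℚ[X], AR.det • E ∈ SS q' B' P R 0 := by
      intro E
      obtain ⟨z, hz⟩ : ∃ z : d → ℚ[X], AR.det • E = z ᵥ* AR := by
        refine ⟨E ᵥ* AR.adjugate, ?_⟩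
        rw [Matrix.vecMul_vecMul, Matrix.adjugate_mul, Matrix.vecMul_smul, Matrix.vecMul_one]
      have h2 : AR.det • E
          = ∑ i, z i • (Sum.elim R (fun k => Pi.single (jj k) (1 : ℚ[X])) (e1 i)) := by
        rw [hz]
        funext j
        simp only [Matrix.vecMul, dotProduct, hAR, Matrix.of_apply, Finset.sum_apply,
          Pi.smul_apply, smul_eq_mul]
      rw [h2]
      refine Submodule.sum_mem _ fun i _ => Submodule.smul_mem _ _ ?_
      rcases hi : e1 i with l | k
      · exact R_mem_SS q' B' P R 0 l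
      · exfalso
        have h3 : Fintype.card d = e + Fintype.card κ := by
          rw [Fintype.card_congr e1, Fintype.card_sum, Fintype.card_fin]
        have h4 : 0 < Fintype.card κ := Fintype.card_pos_iff.2 ⟨k⟩
        omega
    exact hfin _ 0 hRξ (by omega) hfull
  · obtain ⟨i0, hi0⟩ : ∃ i, u i ≠ 0 := by
      by_contra hcon
      push Not at hcon
      exact hu0 (funext hcon)
    -- the order of `Dt` at `0`
    have hXT : (PowerSeries.X : PowerSeries ℚ) ^ T ∣ pr H u P := by
      rw [PowerSeries.X_pow_dvd_iff]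
      exact hT
    have hunit : IsUnit (hv H u i0) := by
      rw [PowerSeries.isUnit_iff_constantCoeff]
      have h1 : PowerSeries.constantCoeff (hv H u i0) = u i0 := by
        unfold hv
        rw [map_sum, Finset.sum_eq_single i0]
        · rw [map_mul, hone, if_pos rfl, one_mul, PowerSeries.constantCoeff_C]
        · intro x _ hx
          rw [map_mul, hone, if_neg (Ne.symm hx), zero_mul]
        · intro h; exact absurd (Finset.mem_univ _) h
      rw [h1]
      exact IsUnit.mk0 _ hi0
    have hXD : X ^ T ∣ Dt q' B' P ε R := by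
      rw [Dt_eq]
      set A : Matrix d d ℚ[X] :=
        Matrix.of fun i => Sum.elim (fun k : Fin m' => Pv q' B' P k) R (ε i) with hA
      have h1 : ∀ i, (PowerSeries.X : PowerSeries ℚ) ^ T ∣ ((A.map co) *ᵥ hv H u) i := by
        intro i
        have h2 : ((A.map co) *ᵥ hv H u) i
            = pr H u (Sum.elim (fun k : Fin m' => Pv q' B' P k) R (ε i)) := by
          simp only [Matrix.mulVec, dotProduct, Matrix.map_apply, hA, Matrix.of_apply, pr]
        rw [h2]
        rcases ε i with k | l
        · exact pr_Pv q' B' _ H hode u hu P T hXT k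
        · have : pr H u (R l) = 0 := hR.rel l
          simp only [Sum.elim_inr, this]
          exact dvd_zero _
      have h2 : (A.map co).det • hv H u
          = (A.map co).adjugate *ᵥ ((A.map co) *ᵥ hv H u) := by
        rw [Matrix.mulVec_mulVec, Matrix.adjugate_mul, Matrix.smul_mulVec, Matrix.one_mulVec]
      have h3 := congrFun h2 i0
      rw [Pi.smul_apply, smul_eq_mul] at h3
      have h4 : (PowerSeries.X : PowerSeries ℚ) ^ T ∣ (A.map co).det * hv H u i0 := by
        rw [h3]
        simp only [Matrix.mulVec, dotProduct] at h1 ⊢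
        exact Finset.dvd_sum fun k _ => Dvd.dvd.mul_left (h1 k) _
      have h5 := hunit.dvd_mul_right.1 h4
      have h6 : (A.map co).det = co A.det := by
        have := RingHom.map_det (co : ℚ[X] →+* PowerSeries ℚ) A
        exact this.symm
      rw [h6, co_apply, PowerSeries.X_pow_dvd_iff] at h5
      rw [Polynomial.X_pow_dvd_iff]
      intro m hm
      have := h5 m hm
      rwa [Polynomial.coeff_coe] at this
    -- the degree of `Dt`
    have hdeg : (Dt q' B' P ε R).natDegree ≤ m' * M + (m' * (c * m') + e * c3) := by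
      rw [Dt_eq]
      refine (det_natDegree_le _ (fun i => Sum.elim (fun k : Fin m' => M + c * (k : ℕ))
        (fun _ => c3) (ε i)) ?_).trans ?_
      · intro i j
        rw [Matrix.of_apply]
        rcases ε i with k | l
        · exact Pv_natDegree q' B' P c M hc hB hM k j
        · exact hc3 l j
      · rw [Equiv.sum_comp ε (Sum.elim (fun k : Fin m' => M + c * (k : ℕ)) (fun _ => c3)),
          Fintype.sum_sum_type]
        simp only [Sum.elim_inl, Sum.elim_inr, Finset.sum_const, Finset.card_univ,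
          Fintype.card_fin, smul_eq_mul]
        have h1 : ∑ k : Fin m', (M + c * (k : ℕ)) ≤ m' * (M + c * m') := by
          refine (Finset.sum_le_card_nsmul _ _ (M + c * m') fun k _ => ?_).trans (by
            rw [Finset.card_univ, Fintype.card_fin, smul_eq_mul])
          have := Nat.mul_le_mul_left c k.2.le
          omega
        rw [Nat.mul_add] at h1
        omega
    -- the multiplicity at `ξ`
    obtain ⟨g, hg, hgd⟩ := Polynomial.exists_eq_pow_rootMultiplicity_mul_and_not_dvd
      (Dt q' B' P ε R) hDt ξ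
    set a := rootMultiplicity ξ (Dt q' B' P ε R) with ha
    have hg0 : g.eval ξ ≠ 0 := fun h => hgd (dvd_iff_isRoot.2 h)
    have haτ : a ≤ τ := by
      have hco : IsCoprime (X ^ T : ℚ[X]) ((X - C ξ) ^ a) := by
        refine IsCoprime.pow ?_
        have := Polynomial.isCoprime_X_sub_C_of_isUnit_sub (R := ℚ) (a := 0) (b := ξ)
          (by rw [zero_sub, isUnit_iff_ne_zero]; exact neg_ne_zero.2 hξ)
        simpa using this
      have h1 : X ^ T * (X - C ξ) ^ a ∣ Dt q' B' P ε R :=
        hco.mul_dvd hXD (by rw [hg]; exact dvd_mul_right _ _)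
      have h2 := (natDegree_le_of_dvd h1 hDt).trans hdeg
      rw [Monic.natDegree_mul (monic_X_pow _) ((monic_X_sub_C _).pow _), natDegree_X_pow,
        natDegree_pow, natDegree_X_sub_C, mul_one] at h2
      omega
    obtain ⟨g', hg', hfull⟩ := lowerS q' B' P R F hF ξ hξ hqξ hFξ a m' g hg0 (fun E => by
      rw [← hg]; exact det_fullS q' B' P ε R E)
    exact hfin g' (m' + a) hg' (by omega) hfull


end Pool.Agent.MT100D.H78
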